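import Pool.Graph.R_seed8.H906R3.K6.L7
import Pool.Graph.R_seed8.H974R3.Box

/-!
# The stationary measure of the pattern chain does not depend on the anisotropy
-/

namespace Pool.Agent.Helper21.ID

open Pool.Agent.H974R3 Finset

/-- the weight of a row of plaquettes, each in the state `true` with probability `p` -/
noncomputable def rw1 {R : Type*} [CommRing R] {ι : Type*} [Fintype ι] (p : R) (c : ι → Bool) : R :=
  ∏ j, if c j = true then p else 1 - p

theorem exists_q : ∃ q : ℂ, q ^ 2 + q + 1 = 0 ∧ q.im ≠ 0 := by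
  refine ⟨⟨-1 / 2, Real.sqrt 3 / 2⟩, ?_, ?_⟩
  · have h3 : Real.sqrt 3 * Real.sqrt 3 = 3 := Real.mul_self_sqrt (by norm_num)
    apply Complex.ext
    · simp only [pow_two, Complex.add_re, Complex.mul_re, Complex.one_re, Complex.zero_re]
      nlinarith [h3]
    · simp only [pow_two, Complex.add_im, Complex.mul_im, Complex.one_im, Complex.zero_im]
      ring
  · have : (0 : ℝ) < Real.sqrt 3 := Real.sqrt_pos.2 (by norm_num)
    show Real.sqrt 3 / 2 ≠ 0
    positivity

theorem TL_one_apply (m : ℕ) (q x : ℂ) (v : Pat (m + 1) → ℂ) (τ : Pat (m + 1)) :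
    (H906K.TL m q x (1 : ℂˣ)).mulVec v τ =
      ∑ c : Fin (m + 1) → Bool, (∏ j, wt q (c j) x) * push (Tc m c) v τ := by
  simp only [Matrix.mulVec, dotProduct, H906K.TL, one_zpow, Units.val_one, mul_one, push,
    Finset.sum_mul, Finset.mul_sum]
  rw [Finset.sum_comm]
  refine Finset.sum_congr rfl fun c _ => Finset.sum_congr rfl fun σ _ => ?_
  split_ifs <;> simp

theorem sum_push {X Y : Type*} [Fintype X] [Fintype Y] [DecidableEq Y] (g : X → Y)
    (v : X → ℂ) : ∑ y, push g v y = ∑ x, v x := by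
  unfold push
  rw [Finset.sum_comm]
  refine Finset.sum_congr rfl fun x _ => ?_
  simp

theorem sum_prod_bool {ι : Type*} [Fintype ι] [DecidableEq ι] (a b : ℂ) :
    ∑ c : ι → Bool, ∏ j, (if c j = true then a else b) = (a + b) ^ Fintype.card ι := by
  have h := Finset.prod_univ_sum (fun _ : ι => (Finset.univ : Finset Bool))
    (fun _ x => if x = true then a else b)
  simp only [Fintype.piFinset_univ] at h
  rw [← h]
  simp

theorem stat_complex (n : ℕ) (μ : Pat (2 * n + 1) → ℂ) (h1 : ∑ σ, μ σ = 1)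
    (hst : ∀ σ, ∑ c : Fin (2 * n + 1) → Bool, push (Tc (2 * n) c) μ σ = 2 ^ (2 * n + 1) * μ σ)
    (q : ℂ) (hq : q ^ 2 + q + 1 = 0) (x : ℂ) (σ : Pat (2 * n + 1)) :
    ∑ c : Fin (2 * n + 1) → Bool, (∏ j, wt q (c j) x) * push (Tc (2 * n) c) μ σ
      = (1 + x) ^ (2 * n + 1) * μ σ := by
  set A := H906K.TL (2 * n) q 1 (1 : ℂˣ) with hA
  set B := H906K.TL (2 * n) q x (1 : ℂˣ) with hB
  have hwt : ∀ b, wt q b 1 = 1 := by
    intro b
    unfold wt
    split_ifs
    · linear_combination -hq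
    · linear_combination -hq
  have hAv : ∀ v : Pat (2 * n + 1) → ℂ, ∀ σ, A.mulVec v σ =
      ∑ c : Fin (2 * n + 1) → Bool, push (Tc (2 * n) c) v σ := by
    intro v σ
    rw [hA, TL_one_apply]
    simp only [hwt, Finset.prod_const_one, one_mul]
  have hAμ : A.mulVec μ = (2 ^ (2 * n + 1) : ℂ) • μ := by
    funext σ
    rw [hAv, hst]
    rfl
  have hcomm : A * B = B * A := H906K.TL_comm n q 1 x hq 1
  have hABμ : A.mulVec (B.mulVec μ) = (2 ^ (2 * n + 1) : ℂ) • B.mulVec μ := by
    rw [Matrix.mulVec_mulVec, hcomm, ← Matrix.mulVec_mulVec, hAμ, Matrix.mulVec_smul]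
  have hsumB : ∑ σ, B.mulVec μ σ = (1 + x) ^ (2 * n + 1) := by
    simp only [hB, TL_one_apply]
    rw [Finset.sum_comm]
    simp only [← Finset.mul_sum, sum_push, h1, mul_one]
    have e : ∀ c : Fin (2 * n + 1) → Bool, ∏ j, wt q (c j) x
        = ∏ j, (if c j = true then -q - q ^ 2 * x else -q ^ 2 - q * x) := fun c => rfl
    simp only [e]
    rw [sum_prod_bool, Fintype.card_fin]
    congr 1
    linear_combination (-1 - x) * hq
  have hz : B.mulVec μ - ((1 + x) ^ (2 * n + 1) : ℂ) • μ = 0 := by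
    apply markov_unique n
    · intro σ
      rw [← hAv, Matrix.mulVec_sub, hABμ, Matrix.mulVec_smul, hAμ]
      simp only [Pi.sub_apply, Pi.smul_apply, smul_eq_mul]
      ring
    · simp only [Pi.sub_apply, Pi.smul_apply, smul_eq_mul, Finset.sum_sub_distrib, ← Finset.mul_sum,
        hsumB, h1]
      ring
  have := congrFun hz σ
  simp only [Pi.sub_apply, Pi.smul_apply, smul_eq_mul, Pi.zero_apply, hB, TL_one_apply] at this
  linear_combination this

/-- stationarity for rows with an arbitrary bias -/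
theorem stat_bias (n : ℕ) (μ : Pat (2 * n + 1) → ℝ) (h1 : ∑ σ, μ σ = 1)
    (hst : ∀ σ, ∑ c : Fin (2 * n + 1) → Bool, push (Tc (2 * n) c) μ σ = 2 ^ (2 * n + 1) * μ σ)
    (p : ℝ) (σ : Pat (2 * n + 1)) :
    ∑ c : Fin (2 * n + 1) → Bool, rw1 p c * push (Tc (2 * n) c) μ σ = μ σ := by
  obtain ⟨q, hq, him⟩ := exists_q
  set ν : Pat (2 * n + 1) → ℂ := fun σ => (μ σ : ℂ) with hν
  have h1' : ∑ σ, ν σ = 1 := by
    simp only [hν]
    rw [← Complex.ofReal_sum, h1, Complex.ofReal_one]
  have hpush : ∀ (g : Pat (2 * n + 1) → Pat (2 * n + 1)) (σ : Pat (2 * n + 1)),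
      push g ν σ = ((push g μ σ : ℝ) : ℂ) := by
    intro g σ
    simp only [push, hν]
    push_cast
    refine Finset.sum_congr rfl fun x _ => ?_
    split_ifs <;> simp
  have hst' : ∀ σ, ∑ c : Fin (2 * n + 1) → Bool, push (Tc (2 * n) c) ν σ
      = 2 ^ (2 * n + 1) * ν σ := by
    intro σ
    simp only [hpush]
    rw [← Complex.ofReal_sum, hst]
    push_cast
    rfl
  have hd : (p : ℂ) + q ^ 2 ≠ 0 := by
    intro h
    have h2 : q ^ 2 = -(p : ℂ) := by linear_combination h
    have h3 : q = (p : ℂ) - 1 := by linear_combination hq - h2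
    apply him
    rw [h3]
    simp
  have hone : 1 + -((p : ℂ) + q) / (p + q ^ 2) ≠ 0 := by
    have e : 1 + -((p : ℂ) + q) / (p + q ^ 2) = (q ^ 2 - q) / (p + q ^ 2) := by
      field_simp
      ring
    rw [e]
    apply div_ne_zero _ hd
    intro h
    have h2 : 2 * q = -1 := by linear_combination hq - h
    have h3 := congrArg Complex.im h2
    simp at h3
    exact him h3
  have hx := stat_complex n ν h1' hst' q hq (-((p : ℂ) + q) / (p + q ^ 2)) σ
  set x := -((p : ℂ) + q) / (p + q ^ 2) with hxd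
  have hxe : x * (p + q ^ 2) = -(p + q) := by
    rw [hxd]; field_simp
  have hw : ∀ b, wt q b x = (1 + x) * (if b = true then (p : ℂ) else 1 - p) := by
    intro b
    unfold wt
    split_ifs
    · linear_combination -hxe
    · linear_combination hxe - (1 + x) * hq
  have hprod : ∀ c : Fin (2 * n + 1) → Bool, ∏ j, wt q (c j) x
      = (1 + x) ^ (2 * n + 1) * (((rw1 p c : ℝ)) : ℂ) := by
    intro c
    simp only [hw, Finset.prod_mul_distrib, Finset.prod_const, Finset.card_univ, Fintype.card_fin]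
    congr 1
    unfold rw1
    push_cast
    refine Finset.prod_congr rfl fun j _ => ?_
    split_ifs <;> simp
  simp only [hprod, hpush, mul_assoc, ← Finset.mul_sum] at hx
  have h3 := mul_left_cancel₀ (pow_ne_zero _ hone) hx
  have h4 : ((∑ c : Fin (2 * n + 1) → Bool, rw1 p c * push (Tc (2 * n) c) μ σ : ℝ) : ℂ)
      = ((μ σ : ℝ) : ℂ) := by
    push_cast at h3 ⊢
    exact h3
  exact_mod_cast h4

/-- average over rows with prescribed biases -/
theorem rows_stat_bias (n : ℕ) (μ : Pat (2 * n + 1) → ℝ) (h1 : ∑ σ, μ σ = 1)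
    (hst : ∀ σ, ∑ c : Fin (2 * n + 1) → Bool, push (Tc (2 * n) c) μ σ = 2 ^ (2 * n + 1) * μ σ)
    (M : ℕ) : ∀ (p : ℕ → ℝ) (f : Pat (2 * n + 1) → ℝ),
    ∑ c : Fin M → (Fin (2 * n + 1) → Bool), (∏ t : Fin M, rw1 (p t) (c t)) *
      ∑ σ, μ σ * f (rows (2 * n) (ext c) M σ) = ∑ σ, μ σ * f σ := by
  induction M with
  | zero =>
    intro p f
    simp [rows]
  | succ M ih =>
    intro p f
    have e : ∑ c : Fin (M + 1) → (Fin (2 * n + 1) → Bool), (∏ t : Fin (M + 1), rw1 (p t) (c t)) *
          ∑ σ, μ σ * f (rows (2 * n) (ext c) (M + 1) σ)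
        = ∑ z : (Fin (2 * n + 1) → Bool) × (Fin M → (Fin (2 * n + 1) → Bool)),
          (rw1 (p M) z.1 * ∏ t : Fin M, rw1 (p t) (z.2 t)) *
          ∑ σ, μ σ * f (Tc (2 * n) z.1 (rows (2 * n) (ext z.2) M σ)) := by
      apply Fintype.sum_equiv (Fin.snocEquiv (fun _ => Fin (2 * n + 1) → Bool)).symm
      intro c
      have h0 : ((Fin.snocEquiv (fun _ => Fin (2 * n + 1) → Bool)).symm c)
          = (c (Fin.last M), fun i : Fin M => c i.castSucc) := rfl
      rw [h0]
      have hp : (∏ t : Fin (M + 1), rw1 (p t) (c t))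
          = rw1 (p M) (c (Fin.last M)) * ∏ t : Fin M, rw1 (p t) (c t.castSucc) := by
        rw [Fin.prod_univ_castSucc, mul_comm]
        rfl
      rw [hp]
      congr 1
      apply Finset.sum_congr rfl
      intro σ _
      have h1 : ext c M = c (Fin.last M) := by
        unfold H974R3.ext; rw [dif_pos (Nat.lt_succ_self M)]; rfl
      have h2 : rows (2 * n) (ext c) M σ = rows (2 * n) (ext (fun i : Fin M => c i.castSucc)) M σ := by
        apply rows_congr
        intro t ht
        unfold H974R3.ext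
        rw [dif_pos (by omega), dif_pos ht]
        rfl
      show μ σ * f (Tc (2 * n) (ext c M) (rows (2 * n) (ext c) M σ)) = _
      rw [h1, h2]
    rw [e, Fintype.sum_prod_type]
    have e2 : ∀ x : Fin (2 * n + 1) → Bool, ∑ y : Fin M → (Fin (2 * n + 1) → Bool),
        (rw1 (p M) x * ∏ t : Fin M, rw1 (p t) (y t)) *
          ∑ σ, μ σ * f (Tc (2 * n) x (rows (2 * n) (ext y) M σ))
        = rw1 (p M) x * ∑ σ, μ σ * f (Tc (2 * n) x σ) := by
      intro x
      rw [← ih p (fun σ => f (Tc (2 * n) x σ)), Finset.mul_sum]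
      refine Finset.sum_congr rfl fun y _ => ?_
      ring
    simp only [e2]
    have e3 : ∀ x : Fin (2 * n + 1) → Bool, ∑ σ, μ σ * f (Tc (2 * n) x σ)
        = ∑ σ, push (Tc (2 * n) x) μ σ * f σ := fun x => (box_sum_push_mul _ _ _).symm
    simp only [e3, Finset.mul_sum]
    rw [Finset.sum_comm]
    refine Finset.sum_congr rfl fun σ _ => ?_
    have := stat_bias n μ h1 hst (p M) σ
    rw [← this, Finset.sum_mul]
    refine Finset.sum_congr rfl fun c _ => ?_
    ring

end Pool.Agent.Helper21.ID
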