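import Mathlib

/-!
# Interfaces of critical percolation on the bi-infinite cylinder of odd circumference

The medial lattice of the cylinder of circumference `2n+1`: its vertices are the plaquettes `(j,t)`
with `j` modulo `2n+1` and `t` an integer. Every plaquette is in one of two states, which say how the
four medial edges around it are connected in pairs; the faces of the picture are (locally, in a
checkerboard way) the primal and the dual sites, and the two states are: the primal edge is present,
or the dual edge is present. The strands are the interfaces between primal and dual clusters.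
-/

namespace Pool.Agent.Helper21.ID

open MeasureTheory ProbabilityTheory

/-- medial edges of the cylinder of circumference `2n+1`: `v j t` is the edge at position `j` and
level `t`, `h j t` is the left side of the plaquette `(j,t)`; the plaquette `(j,t)` has bottom edge
`v j t`, top edge `v j (t+1)`, left edge `h j t` and right edge `h (j+1) t` -/
inductive Edg (n : ℕ) : Type
  | v (j : Fin (2 * n + 1)) (t : ℤ) : Edg n
  | h (j : Fin (2 * n + 1)) (t : ℤ) : Edg n

/-- one-step connections of the strands. In a plaquette in state `false` the bottom and the right
edge are connected and the left and the top edge are connected; in state `true` the bottom and the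
left edge are connected and the right and the top edge are connected. -/
inductive Link {n : ℕ} (ω : Fin (2 * n + 1) × ℤ → Bool) : Edg n → Edg n → Prop
  | br (j : Fin (2 * n + 1)) (t : ℤ) : ω (j, t) = false → Link ω (Edg.v j t) (Edg.h (j + 1) t)
  | lt (j : Fin (2 * n + 1)) (t : ℤ) : ω (j, t) = false → Link ω (Edg.h j t) (Edg.v j (t + 1))
  | bl (j : Fin (2 * n + 1)) (t : ℤ) : ω (j, t) = true → Link ω (Edg.v j t) (Edg.h j t)
  | rt (j : Fin (2 * n + 1)) (t : ℤ) : ω (j, t) = true → Link ω (Edg.h (j + 1) t) (Edg.v j (t + 1))

/-- the strand through a medial edge -/
def strand {n : ℕ} (ω : Fin (2 * n + 1) × ℤ → Bool) (e : Edg n) : Set (Edg n) :=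
  {e' | Relation.EqvGen (Link ω) e e'}

/-- independent plaquettes: a plaquette of the row `t` is in the state `true` with probability
`p t` -/
noncomputable def coins (n : ℕ) (p : ℤ → unitInterval) : Measure (Fin (2 * n + 1) × ℤ → Bool) :=
  Measure.infinitePi (fun z => bernoulliMeasure true false (p z.2))

/-- `∏_{k<L} (3k+1)!/(L+k)!`, the number of alternating sign matrices of size `L` -/
noncomputable def asmN (L : ℕ) : ℝ :=
  ∏ k ∈ Finset.range L, ((3 * k + 1).factorial : ℝ) / ((L + k).factorial : ℝ)

/-- `∏_{k=1}^n (4/3) ((3k)! k!)² / ((2k)!)⁴`, the number of half-turn symmetric alternating sign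
matrices of size `2n+1` -/
noncomputable def ahtN (n : ℕ) : ℝ :=
  ∏ k ∈ Finset.range n, (4 / 3) * (((3 * (k + 1)).factorial : ℝ) * ((k + 1).factorial : ℝ)) ^ 2 /
    ((2 * (k + 1)).factorial : ℝ) ^ 4

end Pool.Agent.Helper21.ID
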