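import Pool.Graph.R_seed8.H988R3.Asym
import Pool.Agent.Helper21.ID.Defs

/-!
# Closed form and asymptotics of the density
-/

namespace Pool.Agent.Helper21.ID

open Pool.Agent.H974R3 Pool.Agent.H974R3.Value Pool.Agent.H988R3.V4 Filter Topology

/-! ### closed form -/

theorem asmN_succ (L : ℕ) : asmN (L + 1) = asmN L *
    (((3 * L + 1).factorial : ℝ) * (L.factorial : ℝ) /
      (((2 * L).factorial : ℝ) * ((2 * L + 1).factorial : ℝ))) := by
  unfold asmN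
  rw [Finset.prod_div_distrib, Finset.prod_div_distrib, Finset.prod_range_succ]
  have h1 : ∏ k ∈ Finset.range (L + 2), ((L + k).factorial : ℝ) =
      (∏ k ∈ Finset.range (L + 1), ((L + 1 + k).factorial : ℝ)) * (L.factorial : ℝ) := by
    rw [Finset.prod_range_succ']
    congr 1
    refine Finset.prod_congr rfl fun k _ => ?_
    congr 2
    ring
  have h2 : ∏ k ∈ Finset.range (L + 2), ((L + k).factorial : ℝ) =
      (∏ k ∈ Finset.range L, ((L + k).factorial : ℝ)) * ((2 * L).factorial : ℝ) *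
        ((2 * L + 1).factorial : ℝ) := by
    rw [Finset.prod_range_succ, Finset.prod_range_succ, show L + L = 2 * L by ring,
      show L + (L + 1) = 2 * L + 1 by ring]
  have h3 : ∀ m : ℕ, (0 : ℝ) < (m.factorial : ℝ) := fun m => by exact_mod_cast m.factorial_pos
  have h4 : ∏ k ∈ Finset.range (L + 1), ((L + 1 + k).factorial : ℝ) =
      (∏ k ∈ Finset.range L, ((L + k).factorial : ℝ)) * ((2 * L).factorial : ℝ) *
        ((2 * L + 1).factorial : ℝ) / (L.factorial : ℝ) := by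
    rw [eq_div_iff (h3 L).ne', ← h1, h2]
  rw [h4]
  have h5 : (0 : ℝ) < ∏ k ∈ Finset.range L, ((L + k).factorial : ℝ) :=
    Finset.prod_pos fun k _ => h3 _
  have a1 := h3 L
  have a2 := h3 (2 * L)
  have a3 := h3 (2 * L + 1)
  field_simp

theorem ahtN_succ (n : ℕ) : ahtN (n + 1) = ahtN n *
    ((4 / 3) * (((3 * (n + 1)).factorial : ℝ) * ((n + 1).factorial : ℝ)) ^ 2 /
    ((2 * (n + 1)).factorial : ℝ) ^ 4) := by
  unfold ahtN
  rw [Finset.prod_range_succ]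

theorem fac_succ (m : ℕ) : (((m + 1).factorial : ℕ) : ℝ) = ((m : ℝ) + 1) * (m.factorial : ℝ) := by
  rw [Nat.factorial_succ]; push_cast; ring

/-- the ratio of consecutive values of the closed form -/
noncomputable def rf (n : ℕ) : ℝ :=
  (((6 * n + 4).factorial : ℝ) * ((2 * n + 1).factorial : ℝ) *
      (((6 * n + 7).factorial : ℝ) * ((2 * n + 2).factorial : ℝ)) * ((2 * n + 2).factorial : ℝ) ^ 8) /
    (((4 * n + 2).factorial : ℝ) * ((4 * n + 3).factorial : ℝ) *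
      (((4 * n + 4).factorial : ℝ) * ((4 * n + 5).factorial : ℝ)) *
      ((16 / 9) * (((3 * n + 3).factorial : ℝ) * ((n + 1).factorial : ℝ)) ^ 4))

theorem closed_step (n : ℕ) : asmN (2 * (n + 1) + 1) / ahtN (n + 1) ^ 2 =
    asmN (2 * n + 1) / ahtN n ^ 2 * rf n := by
  have h3 : ∀ m : ℕ, (0 : ℝ) < (m.factorial : ℝ) := fun m => by exact_mod_cast m.factorial_pos
  have h4 : 0 < ahtN n := by
    unfold ahtN
    refine Finset.prod_pos fun k _ => ?_
    have b1 := h3 (3 * (k + 1))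
    have b2 := h3 (k + 1)
    have b3 := h3 (2 * (k + 1))
    positivity
  rw [show 2 * (n + 1) + 1 = 2 * n + 1 + 1 + 1 by ring, asmN_succ, asmN_succ, ahtN_succ]
  unfold rf
  rw [show 3 * (2 * n + 1 + 1) + 1 = 6 * n + 7 by ring, show 3 * (2 * n + 1) + 1 = 6 * n + 4 by ring,
    show 2 * (2 * n + 1 + 1) + 1 = 4 * n + 5 by ring, show 2 * (2 * n + 1 + 1) = 4 * n + 4 by ring,
    show 2 * (2 * n + 1) + 1 = 4 * n + 3 by ring, show 2 * (2 * n + 1) = 4 * n + 2 by ring,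
    show 2 * n + 1 + 1 = 2 * n + 2 by ring, show 2 * (n + 1) = 2 * n + 2 by ring,
    show 3 * (n + 1) = 3 * n + 3 by ring]
  have a1 := h3 (6 * n + 4)
  have a2 := h3 (2 * n + 1)
  have a3 := h3 (6 * n + 7)
  have a4 := h3 (2 * n + 2)
  have a5 := h3 (4 * n + 2)
  have a6 := h3 (4 * n + 3)
  have a7 := h3 (4 * n + 4)
  have a8 := h3 (4 * n + 5)
  have a9 := h3 (3 * n + 3)
  have a10 := h3 (n + 1)
  field_simp
  ring

theorem rr_factor (x : ℝ) (hx : 0 ≤ x) :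
    ((2 * (3 * x + 5)) * (3 * (2 * x + 3)) * (2 * (3 * x + 4)) * (6 * x + 7) * (6 * (x + 1)) *
          (6 * x + 5)) * ((2 * x + 3) * (2 * (x + 1))) *
        (((6 * x + 13) * (6 * (x + 2)) * (6 * x + 11) * (2 * (3 * x + 5)) * (3 * (2 * x + 3)) *
          (2 * (3 * x + 4))) * (2 * (x + 2) * (2 * x + 3))) * (2 * (x + 2) * (2 * x + 3)) ^ 8 /
      (((2 * (2 * x + 3)) * (4 * x + 5) * (4 * (x + 1)) * (4 * x + 3)) *
        ((4 * x + 7) * (2 * (2 * x + 3)) * (4 * x + 5) * (4 * (x + 1))) *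
        (((4 * (x + 2)) * (4 * x + 7) * (2 * (2 * x + 3)) * (4 * x + 5)) *
        ((4 * x + 9) * (4 * (x + 2)) * (4 * x + 7) * (2 * (2 * x + 3)))) *
        ((3 * (x + 2) * (3 * x + 5) * (3 * x + 4)) * (x + 2)) ^ 4) = rr x := by
  unfold rr
  have h1 : 0 < x + 1 := by linarith
  have h2 : 0 < x + 2 := by linarith
  have h3 : 0 < 2 * x + 3 := by linarith
  have h4 : 0 < 3 * x + 4 := by linarith
  have h5 : 0 < 3 * x + 5 := by linarith
  have h6 : 0 < 4 * x + 3 := by linarith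
  have h7 : 0 < 4 * x + 5 := by linarith
  have h8 : 0 < 4 * x + 7 := by linarith
  have h9 : 0 < 4 * x + 9 := by linarith
  generalize x + 1 = a1 at *
  generalize x + 2 = a2 at *
  generalize 2 * x + 3 = a3 at *
  generalize 3 * x + 4 = a4 at *
  generalize 3 * x + 5 = a5 at *
  generalize 4 * x + 3 = a6 at *
  generalize 4 * x + 5 = a7 at *
  generalize 4 * x + 7 = a8 at *
  generalize 4 * x + 9 = a9 at *
  generalize 6 * x + 5 = a10 at *
  generalize 6 * x + 7 = a11 at *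
  generalize 6 * x + 11 = a12 at *
  generalize 6 * x + 13 = a13 at *
  field_simp
  ring

theorem rf_succ (n : ℕ) : rf (n + 1) = rf n * rr n := by
  rw [← rr_factor (n : ℝ) (Nat.cast_nonneg n)]
  unfold rf
  have e1 : (((6 * (n + 1) + 4).factorial : ℕ) : ℝ) =
      ((2 * (3 * (n : ℝ) + 5)) * (3 * (2 * (n : ℝ) + 3)) * (2 * (3 * (n : ℝ) + 4)) *
        (6 * (n : ℝ) + 7) * (6 * ((n : ℝ) + 1)) * (6 * (n : ℝ) + 5)) *
        ((6 * n + 4).factorial : ℝ) := by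
    rw [show 6 * (n + 1) + 4 = 6 * n + 4 + 1 + 1 + 1 + 1 + 1 + 1 by ring]
    simp only [fac_succ]
    generalize ((6 * n + 4).factorial : ℝ) = b
    push_cast
    ring
  have e2 : (((6 * (n + 1) + 7).factorial : ℕ) : ℝ) =
      ((6 * (n : ℝ) + 13) * (6 * ((n : ℝ) + 2)) * (6 * (n : ℝ) + 11) * (2 * (3 * (n : ℝ) + 5)) *
        (3 * (2 * (n : ℝ) + 3)) * (2 * (3 * (n : ℝ) + 4))) *
        ((6 * n + 7).factorial : ℝ) := by
    rw [show 6 * (n + 1) + 7 = 6 * n + 7 + 1 + 1 + 1 + 1 + 1 + 1 by ring]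
    simp only [fac_succ]
    generalize ((6 * n + 7).factorial : ℝ) = b
    push_cast
    ring
  have e3 : (((2 * (n + 1) + 1).factorial : ℕ) : ℝ) =
      ((2 * (n : ℝ) + 3) * (2 * ((n : ℝ) + 1))) * ((2 * n + 1).factorial : ℝ) := by
    rw [show 2 * (n + 1) + 1 = 2 * n + 1 + 1 + 1 by ring]
    simp only [fac_succ]
    push_cast
    ring
  have e4 : (((2 * (n + 1) + 2).factorial : ℕ) : ℝ) =
      (2 * ((n : ℝ) + 2) * (2 * (n : ℝ) + 3)) * ((2 * n + 2).factorial : ℝ) := by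
    rw [show 2 * (n + 1) + 2 = 2 * n + 2 + 1 + 1 by ring]
    simp only [fac_succ]
    push_cast
    ring
  have e5 : (((4 * (n + 1) + 2).factorial : ℕ) : ℝ) =
      ((2 * (2 * (n : ℝ) + 3)) * (4 * (n : ℝ) + 5) * (4 * ((n : ℝ) + 1)) * (4 * (n : ℝ) + 3)) *
        ((4 * n + 2).factorial : ℝ) := by
    rw [show 4 * (n + 1) + 2 = 4 * n + 2 + 1 + 1 + 1 + 1 by ring]
    simp only [fac_succ]
    push_cast
    ring
  have e6 : (((4 * (n + 1) + 3).factorial : ℕ) : ℝ) =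
      ((4 * (n : ℝ) + 7) * (2 * (2 * (n : ℝ) + 3)) * (4 * (n : ℝ) + 5) * (4 * ((n : ℝ) + 1))) *
        ((4 * n + 3).factorial : ℝ) := by
    rw [show 4 * (n + 1) + 3 = 4 * n + 3 + 1 + 1 + 1 + 1 by ring]
    simp only [fac_succ]
    push_cast
    ring
  have e7 : (((4 * (n + 1) + 4).factorial : ℕ) : ℝ) =
      ((4 * ((n : ℝ) + 2)) * (4 * (n : ℝ) + 7) * (2 * (2 * (n : ℝ) + 3)) * (4 * (n : ℝ) + 5)) *
        ((4 * n + 4).factorial : ℝ) := by
    rw [show 4 * (n + 1) + 4 = 4 * n + 4 + 1 + 1 + 1 + 1 by ring]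
    simp only [fac_succ]
    push_cast
    ring
  have e8 : (((4 * (n + 1) + 5).factorial : ℕ) : ℝ) =
      ((4 * (n : ℝ) + 9) * (4 * ((n : ℝ) + 2)) * (4 * (n : ℝ) + 7) * (2 * (2 * (n : ℝ) + 3))) *
        ((4 * n + 5).factorial : ℝ) := by
    rw [show 4 * (n + 1) + 5 = 4 * n + 5 + 1 + 1 + 1 + 1 by ring]
    simp only [fac_succ]
    push_cast
    ring
  have e9 : (((3 * (n + 1) + 3).factorial : ℕ) : ℝ) =
      (3 * ((n : ℝ) + 2) * (3 * (n : ℝ) + 5) * (3 * (n : ℝ) + 4)) *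
        ((3 * n + 3).factorial : ℝ) := by
    rw [show 3 * (n + 1) + 3 = 3 * n + 3 + 1 + 1 + 1 by ring]
    simp only [fac_succ]
    push_cast
    ring
  have e10 : (((n + 1 + 1).factorial : ℕ) : ℝ) = ((n : ℝ) + 2) * ((n + 1).factorial : ℝ) := by
    simp only [fac_succ]
    push_cast
    ring
  rw [e1, e2, e3, e4, e5, e6, e7, e8, e9, e10]
  rw [div_mul_div_comm]
  congr 1 <;> ring

theorem rho_zero : rho 0 = 7 / 9 := by
  unfold rho ff ee
  norm_num [Finset.prod_range_succ, aexp]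

theorem rf_zero : rf 0 = 7 / 9 := by
  unfold rf
  norm_num [Nat.factorial]

theorem rho_eq_rf (n : ℕ) : rho n = rf n := by
  induction n with
  | zero => rw [rho_zero, rf_zero]
  | succ n ih => rw [rho_succ, rf_succ, ih]

/-- the closed form -/
theorem pval_closed (n : ℕ) : pval n = asmN (2 * n + 1) / ahtN n ^ 2 := by
  induction n with
  | zero =>
    rw [pval_zero]
    unfold asmN ahtN
    simp
  | succ n ih => rw [pval_succ, closed_step, ← ih, rho_eq_rf]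

/-! ### asymptotics -/

theorem rr_lower2 (x : ℝ) (hx : 0 ≤ x) :
    ((2 * x + 3) ^ 2) ^ 2 + (2 * x + 3) ^ 2 + 4 / 3 ≤ rr x * ((2 * x + 3) ^ 2) ^ 2 := by
  set M : ℝ := (2 * x + 3) ^ 2 with hM
  have hM9 : 9 ≤ M := by rw [hM]; nlinarith
  have hrr : rr x = 256 * M ^ 4 * ((9 * M - 4) * (9 * M - 16)) /
      ((9 * M - 1) ^ 2 * ((4 * M - 1) ^ 3 * (4 * M - 9))) := by
    have hpos : (0 : ℝ) < (9 * M - 1) ^ 2 * ((4 * M - 1) ^ 3 * (4 * M - 9)) := by
      have a1 : 0 < 9 * M - 1 := by linarith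
      have a2 : 0 < 4 * M - 1 := by linarith
      have a3 : 0 < 4 * M - 9 := by linarith
      positivity
    unfold rr
    rw [div_eq_div_iff (by positivity) hpos.ne', hM]
    ring
  have a1 : 0 < 9 * M - 1 := by linarith
  have a2 : 0 < 4 * M - 1 := by linarith
  have a3 : 0 < 4 * M - 9 := by linarith
  rw [hrr, div_mul_eq_mul_div, le_div_iff₀ (by positivity)]
  obtain ⟨t, ht⟩ : ∃ t : ℝ, t = M - 9 := ⟨_, rfl⟩
  have ht0 : 0 ≤ t := by linarith
  have hMt : M = t + 9 := by linarith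
  rw [hMt]
  have e : 256 * (t + 9) ^ 4 * ((9 * (t + 9) - 4) * (9 * (t + 9) - 16)) * (t + 9) ^ 2 -
      ((t + 9) ^ 2 + (t + 9) + 4 / 3) *
        ((9 * (t + 9) - 1) ^ 2 * ((4 * (t + 9) - 1) ^ 3 * (4 * (t + 9) - 9))) ≥ 0 := by
    ring_nf
    positivity
  linarith

theorem rr_ratio2 (x : ℝ) (hx : 0 ≤ x) :
    ((2 * x + 3) ^ 2 + 1 / 5) ^ 2 * ((2 * x + 3) ^ 2 - 4) ≤
      rr x ^ 4 * ((2 * x + 3) ^ 2 * (((2 * x + 3) ^ 2 - 4) ^ 2 +
        (1 / 5) * (2 * (2 * x + 3) ^ 2 + 8) + 1 / 25)) := by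
  have h1 := rr_lower2 x hx
  set M : ℝ := (2 * x + 3) ^ 2 with hM
  have hM9 : 9 ≤ M := by rw [hM]; nlinarith
  have hr0 : 0 ≤ rr x := by unfold rr; positivity
  have h2 : (M ^ 2 + M + 4 / 3) ^ 4 ≤ (rr x * M ^ 2) ^ 4 := pow_le_pow_left₀ (by positivity) h1 4
  have hB : 0 ≤ M * ((M - 4) ^ 2 + (1 / 5) * (2 * M + 8) + 1 / 25) := by positivity
  have h3 : M ^ 8 * ((M + 1 / 5) ^ 2 * (M - 4)) ≤
      (M ^ 2 + M + 4 / 3) ^ 4 * (M * ((M - 4) ^ 2 + (1 / 5) * (2 * M + 8) + 1 / 25)) := by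
    obtain ⟨t, ht⟩ : ∃ t : ℝ, t = M - 9 := ⟨_, rfl⟩
    have ht0 : 0 ≤ t := by linarith
    have hMt : M = t + 9 := by linarith
    rw [hMt]
    have e : ((t + 9) ^ 2 + (t + 9) + 4 / 3) ^ 4 *
        ((t + 9) * (((t + 9) - 4) ^ 2 + (1 / 5) * (2 * (t + 9) + 8) + 1 / 25)) -
        (t + 9) ^ 8 * (((t + 9) + 1 / 5) ^ 2 * ((t + 9) - 4)) ≥ 0 := by
      ring_nf
      positivity
    linarith
  have h4 : M ^ 8 * ((M + 1 / 5) ^ 2 * (M - 4)) ≤
      M ^ 8 * (rr x ^ 4 * (M * ((M - 4) ^ 2 + (1 / 5) * (2 * M + 8) + 1 / 25))) := by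
    calc _ ≤ _ := h3
      _ ≤ (rr x * M ^ 2) ^ 4 * (M * ((M - 4) ^ 2 + (1 / 5) * (2 * M + 8) + 1 / 25)) :=
          mul_le_mul_of_nonneg_right h2 hB
      _ = _ := by ring
  exact le_of_mul_le_mul_left h4 (by positivity)

/-- `1 + 1/(5 L²)`, `L = 2n+1` -/
noncomputable def kk (n : ℕ) : ℝ := 1 + 1 / (5 * (2 * (n : ℝ) + 1) ^ 2)

theorem kk_pos (n : ℕ) : 0 < kk n := by unfold kk; positivity

/-- corrected ratio -/
noncomputable def ss (n : ℕ) : ℝ := tt n * kk (n + 1) / kk n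

theorem ss_succ (n : ℕ) : ss n ≤ ss (n + 1) := by
  have h1 := rr_ratio2 (n : ℝ) (Nat.cast_nonneg n)
  have h2 := tt_succ n
  have h3 := tt_pos n
  have hn : (0 : ℝ) ≤ n := Nat.cast_nonneg n
  have e1 : tt (n + 1) = tt n * (rr n ^ 4 * ((2 * (n : ℝ) + 5) * (2 * n + 1))) /
      (2 * (n : ℝ) + 3) ^ 2 := by
    rw [eq_div_iff (by positivity), h2]
  have k0 := kk_pos n
  have k1 := kk_pos (n + 1)
  have k2 := kk_pos (n + 2)
  unfold ss
  rw [div_le_div_iff₀ k0 k1, e1]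
  have key : kk (n + 1) * kk (n + 1) * (2 * (n : ℝ) + 3) ^ 2 ≤
      (rr n ^ 4 * ((2 * (n : ℝ) + 5) * (2 * n + 1))) * (kk (n + 2) * kk n) := by
    have a0 : kk n = (5 * (2 * (n : ℝ) + 1) ^ 2 + 1) / (5 * (2 * (n : ℝ) + 1) ^ 2) := by
      unfold kk; field_simp
    have a1 : kk (n + 1) = (5 * (2 * (n : ℝ) + 3) ^ 2 + 1) / (5 * (2 * (n : ℝ) + 3) ^ 2) := by
      unfold kk; push_cast
      rw [show 2 * ((n : ℝ) + 1) + 1 = 2 * n + 3 by ring]
      field_simp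
    have a2 : kk (n + 2) = (5 * (2 * (n : ℝ) + 5) ^ 2 + 1) / (5 * (2 * (n : ℝ) + 5) ^ 2) := by
      unfold kk; push_cast
      rw [show 2 * ((n : ℝ) + 2) + 1 = 2 * n + 5 by ring]
      field_simp
    rw [a0, a1, a2]
    have e2 : (5 * (2 * (n : ℝ) + 3) ^ 2 + 1) / (5 * (2 * (n : ℝ) + 3) ^ 2) *
        ((5 * (2 * (n : ℝ) + 3) ^ 2 + 1) / (5 * (2 * (n : ℝ) + 3) ^ 2)) * (2 * (n : ℝ) + 3) ^ 2 =
        (((2 * (n : ℝ) + 3) ^ 2 + 1 / 5) ^ 2) / (2 * (n : ℝ) + 3) ^ 2 := by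
      field_simp
    have e3 : (rr n ^ 4 * ((2 * (n : ℝ) + 5) * (2 * n + 1))) *
        ((5 * (2 * (n : ℝ) + 5) ^ 2 + 1) / (5 * (2 * (n : ℝ) + 5) ^ 2) *
          ((5 * (2 * (n : ℝ) + 1) ^ 2 + 1) / (5 * (2 * (n : ℝ) + 1) ^ 2))) =
        (rr n ^ 4 * (((2 * (n : ℝ) + 3) ^ 2 - 4) ^ 2 +
        (1 / 5) * (2 * (2 * (n : ℝ) + 3) ^ 2 + 8) + 1 / 25)) / ((2 * (n : ℝ) + 3) ^ 2 - 4) := by
      have e4 : (2 * (n : ℝ) + 3) ^ 2 - 4 = (2 * (n : ℝ) + 5) * (2 * n + 1) := by ring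
      rw [e4]
      field_simp
      ring
    rw [e2, e3, div_le_div_iff₀ (by positivity) (by nlinarith)]
    linarith
  have h5 : 0 < (2 * (n : ℝ) + 3) ^ 2 := by positivity
  have e6 : tt n * (rr n ^ 4 * ((2 * (n : ℝ) + 5) * (2 * n + 1))) / (2 * (n : ℝ) + 3) ^ 2 *
      kk (n + 2) * kk n = tt n * ((rr n ^ 4 * ((2 * (n : ℝ) + 5) * (2 * n + 1))) *
        (kk (n + 2) * kk n)) / (2 * (n : ℝ) + 3) ^ 2 := by ring
  have e7 : tt n * kk (n + 1) * kk (n + 1) =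
      tt n * (kk (n + 1) * kk (n + 1) * (2 * (n : ℝ) + 3) ^ 2) / (2 * (n : ℝ) + 3) ^ 2 := by
    field_simp
  show tt n * kk (n + 1) * kk (n + 1) ≤ _ * kk (n + 2) * kk n
  rw [e6, e7]
  gcongr

theorem ss_mono : Monotone ss := monotone_nat_of_le_succ ss_succ

theorem kk_anti (n : ℕ) : kk (n + 1) ≤ kk n := by
  unfold kk
  push_cast
  gcongr
  linarith

theorem ss_le_tt (n : ℕ) : ss n ≤ tt n := by
  unfold ss
  rw [div_le_iff₀ (kk_pos n)]
  exact mul_le_mul_of_nonneg_left (kk_anti n) (tt_pos n).le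

theorem tt_le (n : ℕ) : tt n ≤ 1 + 1 / ((n : ℝ) + 1) := by
  have h := tt_upper pval_le_one n
  have hn : (0 : ℝ) ≤ n := Nat.cast_nonneg n
  have h1 : (0 : ℝ) < (2 * (n : ℝ) + 1) * (n + 2) := by positivity
  have h2 : tt n ≤ ((n : ℝ) + 1) * (2 * n + 3) / ((2 * (n : ℝ) + 1) * (n + 2)) := by
    rw [le_div_iff₀ h1]; exact h
  refine h2.trans ?_
  rw [div_le_iff₀ h1]
  field_simp
  nlinarith

theorem ss_le_one (k : ℕ) : ss k ≤ 1 := by
  have h : Tendsto (fun n : ℕ => 1 + 1 / ((n : ℝ) + 1)) atTop (𝓝 (1 + 0)) :=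
    tendsto_one_div_add_atTop_nhds_zero_nat.const_add 1
  rw [add_zero] at h
  refine ge_of_tendsto h ?_
  filter_upwards [eventually_ge_atTop k] with n hn
  exact (ss_mono hn).trans ((ss_le_tt n).trans (tt_le n))

theorem one_le_tt' (n : ℕ) : 1 ≤ tt n := one_le_tt pval_ge n

theorem ww_mono : Monotone ww := monotone_nat_of_le_succ fun n => by
  rw [ww_succ]
  exact le_mul_of_one_le_right (ww_pos n).le (one_le_tt' n)

/-- corrected sequence -/
noncomputable def vv (n : ℕ) : ℝ := ww n * kk n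

theorem vv_anti : Antitone vv := antitone_nat_of_succ_le fun n => by
  unfold vv
  rw [ww_succ]
  have h := ss_le_one n
  unfold ss at h
  rw [div_le_one (kk_pos n)] at h
  calc ww n * tt n * kk (n + 1) = ww n * (tt n * kk (n + 1)) := by ring
    _ ≤ ww n * kk n := mul_le_mul_of_nonneg_left h (ww_pos n).le

theorem ww_le_vv (n : ℕ) : ww n ≤ vv n := by
  unfold vv
  refine le_mul_of_one_le_right (ww_pos n).le ?_
  unfold kk
  have : (0 : ℝ) ≤ 1 / (5 * (2 * (n : ℝ) + 1) ^ 2) := by positivity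
  linarith

theorem ww_le_vv' (m n : ℕ) : ww m ≤ vv n := by
  rcases le_total m n with h | h
  · exact (ww_mono h).trans (ww_le_vv n)
  · exact (ww_le_vv m).trans (vv_anti h)

theorem exists_limit : ∃ c : ℝ, ∀ n, ww n ≤ c ∧ c ≤ vv n := by
  refine ⟨⨆ n, ww n, fun n => ⟨?_, ?_⟩⟩
  · exact le_ciSup ⟨vv 0, by rintro _ ⟨m, rfl⟩; exact ww_le_vv' m 0⟩ n
  · exact ciSup_le fun m => ww_le_vv' m n

theorem pval_five : pval 5 = 3455082761375 / 6122304000241 := by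
  have h1 : rho 1 = 3861 / 4375 := by
    rw [show (1 : ℕ) = 0 + 1 from rfl, rho_succ, rho_zero]; unfold rr; norm_num
  have h2 : rho 2 = 2624375 / 2852388 := by
    rw [show (2 : ℕ) = 1 + 1 from rfl, rho_succ, h1]; unfold rr; norm_num
  have h3 : rho 3 = 1694517755 / 1803785841 := by
    rw [show (3 : ℕ) = 2 + 1 from rfl, rho_succ, h2]; unfold rr; norm_num
  have h4 : rho 4 = 2184154931700 / 2296125351091 := by
    rw [show (4 : ℕ) = 3 + 1 from rfl, rho_succ, h3]; unfold rr; norm_num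
  rw [show (5 : ℕ) = 4 + 1 from rfl, pval_succ, show (4 : ℕ) = 3 + 1 from rfl, pval_succ,
    show (3 : ℕ) = 2 + 1 from rfl, pval_succ, show (2 : ℕ) = 1 + 1 from rfl, pval_succ,
    show (1 : ℕ) = 0 + 1 from rfl, pval_succ, pval_zero, rho_zero]
  simp only [Nat.zero_add, Nat.reduceAdd]
  rw [h1, h2, h3, h4]
  norm_num

/-- the asymptotic form of the density, with explicit error -/
theorem pval_asymp : ∃ C : ℝ, 1.0277 < C ∧ C < 1.0282 ∧ ∀ n : ℕ,
    C * (1 - 1 / (5 * (2 * (n : ℝ) + 1) ^ 2)) ≤ (2 * (n : ℝ) + 1) ^ (1 / 4 : ℝ) * pval n ∧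
      (2 * (n : ℝ) + 1) ^ (1 / 4 : ℝ) * pval n ≤ C := by
  obtain ⟨c, hc⟩ := exists_limit
  have hc5 := hc 5
  have hw5 : ww 5 = (3455082761375 / 6122304000241) ^ 4 * 11 := by
    unfold ww
    rw [pval_five]
    norm_num
  have hv5 : vv 5 = (3455082761375 / 6122304000241) ^ 4 * 11 * (1 + 1 / 605) := by
    unfold vv kk
    rw [hw5]
    norm_num
  rw [hw5, hv5] at hc5
  have hc0 : 0 < c := lt_of_lt_of_le (by positivity) hc5.1
  obtain ⟨C, hC⟩ : ∃ C : ℝ, C = c ^ (1 / 4 : ℝ) := ⟨_, rfl⟩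
  have hC0 : 0 < C := by rw [hC]; exact Real.rpow_pos_of_pos hc0 _
  have hC4 : C ^ 4 = c := by
    rw [hC, ← Real.rpow_natCast, ← Real.rpow_mul hc0.le]
    norm_num
  refine ⟨C, ?_, ?_, fun n => ?_⟩
  · by_contra hcon
    rw [not_lt] at hcon
    have h1 : C ^ 4 ≤ 1.0277 ^ 4 := pow_le_pow_left₀ hC0.le hcon 4
    rw [hC4] at h1
    have h2 := hc5.1.trans h1
    norm_num at h2
  · by_contra hcon
    rw [not_lt] at hcon
    have h1 : 1.0282 ^ 4 ≤ C ^ 4 := pow_le_pow_left₀ (by norm_num) hcon 4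
    rw [hC4] at h1
    have h2 := h1.trans hc5.2
    norm_num at h2
  · obtain ⟨h1, h2⟩ := hc n
    have hL : (0 : ℝ) < 2 * (n : ℝ) + 1 := by positivity
    obtain ⟨a, ha⟩ : ∃ a : ℝ, a = (2 * (n : ℝ) + 1) ^ (1 / 4 : ℝ) := ⟨_, rfl⟩
    have ha0 : 0 < a := by rw [ha]; exact Real.rpow_pos_of_pos hL _
    have ha4 : a ^ 4 = 2 * (n : ℝ) + 1 := by
      rw [ha, ← Real.rpow_natCast, ← Real.rpow_mul hL.le]
      norm_num
    have hp := pval_pos n
    rw [← ha]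
    have hap : (a * pval n) ^ 4 = ww n := by
      unfold ww
      rw [mul_pow, ha4]; ring
    constructor
    · obtain ⟨y, hy⟩ : ∃ y : ℝ, y = 1 / (5 * (2 * (n : ℝ) + 1) ^ 2) := ⟨_, rfl⟩
      have hL1 : (1 : ℝ) ≤ 2 * (n : ℝ) + 1 := by
        have : (0 : ℝ) ≤ n := Nat.cast_nonneg n
        linarith
      have hy0 : 0 < y := by rw [hy]; positivity
      have hy1 : y ≤ 1 / 5 := by
        rw [hy]
        apply div_le_div_of_nonneg_left (by norm_num) (by norm_num)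
        nlinarith
      rw [← hy]
      have h3 : C ^ 4 ≤ (a * pval n) ^ 4 * (1 + y) := by
        rw [hC4, hap, hy]
        exact h2
      have h4 : (C * (1 - y)) ^ 4 ≤ (a * pval n) ^ 4 := by
        have h5 : (1 - y) ^ 4 * (1 + y) ≤ 1 := by
          have e1 : (1 - y) ^ 4 * (1 + y) = ((1 - y) * (1 + y)) * (1 - y) ^ 3 := by ring
          rw [e1]
          have e2 : (1 - y) * (1 + y) ≤ 1 := by nlinarith
          have e3 : (1 - y) ^ 3 ≤ 1 := pow_le_one₀ (by linarith) (by linarith)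
          have e4 : 0 ≤ (1 - y) ^ 3 := pow_nonneg (by linarith) 3
          calc _ ≤ 1 * (1 - y) ^ 3 := mul_le_mul_of_nonneg_right e2 e4
            _ ≤ 1 := by linarith
        have h6 : 0 ≤ (1 - y) ^ 4 := by positivity
        have h7 : 0 ≤ (a * pval n) ^ 4 := by positivity
        calc (C * (1 - y)) ^ 4 = C ^ 4 * (1 - y) ^ 4 := by ring
          _ ≤ ((a * pval n) ^ 4 * (1 + y)) * (1 - y) ^ 4 := mul_le_mul_of_nonneg_right h3 h6
          _ = (a * pval n) ^ 4 * ((1 - y) ^ 4 * (1 + y)) := by ring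
          _ ≤ (a * pval n) ^ 4 * 1 := mul_le_mul_of_nonneg_left h5 h7
          _ = _ := by ring
      exact le_of_pow_le_pow_left₀ (by norm_num) (by positivity) h4
    · have h4 : (a * pval n) ^ 4 ≤ C ^ 4 := by rw [hap, hC4]; exact h1
      exact le_of_pow_le_pow_left₀ (by norm_num) hC0.le h4

end Pool.Agent.Helper21.ID
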