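import Pool.Graph.R_seed8.H988R4.FromCR
import Pool.Agent.Helper21.ID.Defs

/-!
# Strands of the medial lattice of the bi-infinite cylinder of odd circumference
-/

namespace Pool.Agent.Helper21.ID

open Pool.Agent.H974R3 Pool.Agent.H988R4

/-- the level of a medial edge -/
def ht {n : ℕ} : Edg n → ℤ
  | Edg.v _ t => t
  | Edg.h _ t => t

/-- the last position -/
abbrev lst (n : ℕ) : Fin (2 * n + 1) := Fin.last (2 * n)

theorem lst_succ (n : ℕ) : lst n + 1 = 0 := Fin.last_add_one _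

theorem ix_succ (n k : ℕ) : ix (2 * n) k + 1 = ix (2 * n) (k + 1) := by
  rw [← finRotate_apply, CMP.finRotate_ix]
  apply CMP.ix_congr
  rw [CMP.ix_val, Nat.mod_add_mod]

theorem val_succ {n : ℕ} {j : Fin (2 * n + 1)} (h : j ≠ lst n) : (j + 1).val = j.val + 1 := by
  have hv : j.val ≠ 2 * n := fun h' => h (Fin.ext (by simpa using h'))
  rw [Fin.val_add_one]
  rw [if_neg h]

theorem invar {n : ℕ} {ω : Fin (2 * n + 1) × ℤ → Bool} {α : Type*} {l : Edg n → α}
    (hl : ∀ e e', Link ω e e' → l e = l e') {e e' : Edg n} (h : Relation.EqvGen (Link ω) e e') :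
    l e = l e' := by
  induction h with
  | rel x y h => exact hl _ _ h
  | refl x => rfl
  | symm x y _ ih => exact ih.symm
  | trans x y z _ _ ih1 ih2 => exact ih1.trans ih2

/-! ### from patterns to strands -/

/-- the `M` rows below level `t0` -/
def lowc {n : ℕ} (ω : Fin (2 * n + 1) × ℤ → Bool) (t0 : ℤ) (M : ℕ) : ℕ → Fin (2 * n + 1) → Bool :=
  fun s j => ω (j, t0 - M + s)

/-- the `M` rows above level `t0`, seen upside down -/
def uppc {n : ℕ} (ω : Fin (2 * n + 1) × ℤ → Bool) (t0 : ℤ) (M : ℕ) : ℕ → Fin (2 * n + 1) → Bool :=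
  fun s j => !ω (j, t0 + M - 1 - s)

theorem low_rules {n : ℕ} {ω : Fin (2 * n + 1) × ℤ → Bool} {l : Edg n → Bool}
    (hl : ∀ e e', Link ω e e' → l e = l e') (t : ℤ) :
    CMP.Rules (2 * n) (fun j => ω (j, t)) (fun j => l (Edg.v j t)) (fun j => l (Edg.v j (t + 1)))
      (fun j => l (Edg.h (j + 1) t)) := by
  constructor
  · intro k hk
    refine ⟨hl _ _ (Link.br _ _ hk), ?_⟩
    show l (Edg.v (ix (2 * n) (k + 1)) (t + 1)) = l (Edg.h (ix (2 * n) k + 1) t)
    rw [ix_succ]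
    exact (hl _ _ (Link.lt _ _ hk)).symm
  · intro k hk
    refine ⟨?_, (hl _ _ (Link.rt _ _ hk)).symm⟩
    show l (Edg.v (ix (2 * n) (k + 1)) t) = l (Edg.h (ix (2 * n) k + 1) t)
    rw [ix_succ]
    exact hl _ _ (Link.bl _ _ hk)

theorem upp_rules {n : ℕ} {ω : Fin (2 * n + 1) × ℤ → Bool} {l : Edg n → Bool}
    (hl : ∀ e e', Link ω e e' → l e = l e') (t : ℤ) :
    CMP.Rules (2 * n) (fun j => !ω (j, t)) (fun j => l (Edg.v j (t + 1))) (fun j => l (Edg.v j t))
      (fun j => l (Edg.h (j + 1) t)) := by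
  constructor
  · intro k hk
    have hk' : ω (ix (2 * n) (k + 1), t) = true := by simpa using hk
    refine ⟨(hl _ _ (Link.rt _ _ hk')).symm, ?_⟩
    show l (Edg.v (ix (2 * n) (k + 1)) t) = l (Edg.h (ix (2 * n) k + 1) t)
    rw [ix_succ]
    exact hl _ _ (Link.bl _ _ hk')
  · intro k hk
    have hk' : ω (ix (2 * n) (k + 1), t) = false := by simpa using hk
    refine ⟨?_, hl _ _ (Link.br _ _ hk')⟩
    show l (Edg.v (ix (2 * n) (k + 1)) (t + 1)) = l (Edg.h (ix (2 * n) k + 1) t)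
    rw [ix_succ]
    exact (hl _ _ (Link.lt _ _ hk')).symm

theorem low_inv {n : ℕ} {ω : Fin (2 * n + 1) × ℤ → Bool} {l : Edg n → Bool}
    (hl : ∀ e e', Link ω e e' → l e = l e') (t0 : ℤ) (M : ℕ)
    (h0 : ∀ j, l (Edg.v j (t0 - M)) = false) (σ : Pat (2 * n + 1)) (s : ℕ) :
    ∀ v, CMP.ext (fun j => l (Edg.v j (t0 - M + s))) ((rows (2 * n) (lowc ω t0 M) s σ).1 v)
      = CMP.ext (fun j => l (Edg.v j (t0 - M + s))) v := by
  induction s with
  | zero =>
    have key : ∀ v, CMP.ext (fun j => l (Edg.v j (t0 - M + (0 : ℕ)))) v = false := by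
      intro v
      rcases v with _ | j
      · rfl
      · show l (Edg.v j (t0 - M + (0 : ℕ))) = false
        rw [Nat.cast_zero, add_zero]
        exact h0 j
    intro v
    rw [key, key]
  | succ s ih =>
    intro v
    have e : t0 - M + ((s + 1 : ℕ) : ℤ) = t0 - M + s + 1 := by push_cast; ring
    rw [e]
    exact CMP.Tc_inv (low_rules hl (t0 - M + s)) _ ih v

theorem upp_inv {n : ℕ} {ω : Fin (2 * n + 1) × ℤ → Bool} {l : Edg n → Bool}
    (hl : ∀ e e', Link ω e e' → l e = l e') (t0 : ℤ) (M : ℕ)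
    (h0 : ∀ j, l (Edg.v j (t0 + M)) = false) (σ : Pat (2 * n + 1)) (s : ℕ) :
    ∀ v, CMP.ext (fun j => l (Edg.v j (t0 + M - s))) ((rows (2 * n) (uppc ω t0 M) s σ).1 v)
      = CMP.ext (fun j => l (Edg.v j (t0 + M - s))) v := by
  induction s with
  | zero =>
    have key : ∀ v, CMP.ext (fun j => l (Edg.v j (t0 + M - (0 : ℕ)))) v = false := by
      intro v
      rcases v with _ | j
      · rfl
      · show l (Edg.v j (t0 + M - (0 : ℕ))) = false
        rw [Nat.cast_zero, sub_zero]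
        exact h0 j
    intro v
    rw [key, key]
  | succ s ih =>
    intro v
    have e : t0 + M - ((s + 1 : ℕ) : ℤ) = t0 + M - 1 - s := by push_cast; ring
    have e2 : t0 + M - (s : ℤ) = t0 + M - 1 - s + 1 := by ring
    rw [e]
    rw [e2] at ih
    exact CMP.Tc_inv (upp_rules hl (t0 + M - 1 - s)) _ ih v

/-- if the strand `j` of level `t0` lies on the infinite line of the picture, it leaves the slab -/
theorem conn_reach {n : ℕ} (ω : Fin (2 * n + 1) × ℤ → Bool) (t0 : ℤ) (M : ℕ)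
    (σ τ : Pat (2 * n + 1)) (j : Fin (2 * n + 1))
    (h : Conn (rows (2 * n) (lowc ω t0 M) M σ).1 (rows (2 * n) (uppc ω t0 M) M τ).1
      (some j) none) : ∃ e ∈ strand ω (Edg.v j t0), (M : ℤ) ≤ |ht e - t0| := by
  classical
  by_contra hcon
  push Not at hcon
  set l : Edg n → Bool := fun e => decide (e ∈ strand ω (Edg.v j t0)) with hldef
  have hl : ∀ e e', Link ω e e' → l e = l e' := by
    intro e e' hee
    rw [hldef]
    simp only [decide_eq_decide]
    exact ⟨fun h1 => Relation.EqvGen.trans _ _ _ h1 (Relation.EqvGen.rel _ _ hee),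
      fun h1 => Relation.EqvGen.trans _ _ _ h1
        (Relation.EqvGen.symm _ _ (Relation.EqvGen.rel _ _ hee))⟩
  have hlow : ∀ i, l (Edg.v i (t0 - M)) = false := by
    intro i
    rw [hldef]
    simp only [decide_eq_false_iff_not]
    intro hi
    have := hcon _ hi
    simp only [ht] at this
    rw [show t0 - (M : ℤ) - t0 = -(M : ℤ) by ring, abs_neg, abs_of_nonneg (by positivity)] at this
    omega
  have hupp : ∀ i, l (Edg.v i (t0 + M)) = false := by
    intro i
    rw [hldef]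
    simp only [decide_eq_false_iff_not]
    intro hi
    have := hcon _ hi
    simp only [ht] at this
    rw [show t0 + (M : ℤ) - t0 = (M : ℤ) by ring, abs_of_nonneg (by positivity)] at this
    omega
  have h1 := low_inv hl t0 M hlow σ M
  have h2 := upp_inv hl t0 M hupp τ M
  rw [show t0 - (M : ℤ) + M = t0 by ring] at h1
  rw [show t0 + (M : ℤ) - M = t0 by ring] at h2
  have h3 := h _ h1 h2
  have h4 : l (Edg.v j t0) = true := by
    rw [hldef]
    simp only [decide_eq_true_eq]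
    exact Relation.EqvGen.refl _
  have h5 : CMP.ext (fun i => l (Edg.v i t0)) (some j) = l (Edg.v j t0) := rfl
  have h6 : CMP.ext (fun i => l (Edg.v i t0)) none = false := rfl
  rw [h5, h6, h4] at h3
  exact absurd h3 (by simp)

/-! ### alternating rows -/

/-- the row `t` is alternating: bottom arcs `(2i, 2i+1)`, top arcs `(2i+1, 2i+2)` and one strand from
the bottom to the top -/
def AltRow {n : ℕ} (ω : Fin (2 * n + 1) × ℤ → Bool) (t : ℤ) : Prop :=
  ∀ j, ω (j, t) = decide (j.val % 2 = 1)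

theorem AltRow.even {n : ℕ} {ω : Fin (2 * n + 1) × ℤ → Bool} {t : ℤ} (h : AltRow ω t)
    {j : Fin (2 * n + 1)} (hj : ω (j, t) = false) : j.val % 2 = 0 := by
  rw [h j] at hj
  simp only [decide_eq_false_iff_not] at hj
  omega

theorem AltRow.odd {n : ℕ} {ω : Fin (2 * n + 1) × ℤ → Bool} {t : ℤ} (h : AltRow ω t)
    {j : Fin (2 * n + 1)} (hj : ω (j, t) = true) : j.val % 2 = 1 := by
  rw [h j] at hj
  simpa using hj

/-- the region between two alternating rows -/
def Reg {n : ℕ} (t1 t2 : ℤ) : Edg n → Prop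
  | Edg.v _ t => t1 < t ∧ t ≤ t2
  | Edg.h j t => (t1 < t ∧ t < t2) ∨ (t = t1 ∧ j.val % 2 = 0) ∨ (t = t2 ∧ j.val % 2 = 1)

theorem reg_finite {n : ℕ} {t1 t2 : ℤ} (h12 : t1 < t2) : {e : Edg n | Reg t1 t2 e}.Finite := by
  have h1 : {e : Edg n | Reg t1 t2 e} ⊆
      (fun z : Fin (2 * n + 1) × ℤ => Edg.v z.1 z.2) '' (Set.univ ×ˢ Set.Icc t1 t2) ∪
      (fun z : Fin (2 * n + 1) × ℤ => Edg.h z.1 z.2) '' (Set.univ ×ˢ Set.Icc t1 t2) := by
    intro e he
    rcases e with ⟨j, t⟩ | ⟨j, t⟩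
    · left
      have he' : t1 < t ∧ t ≤ t2 := he
      exact ⟨(j, t), ⟨Set.mem_univ _, ⟨he'.1.le, he'.2⟩⟩, rfl⟩
    · right
      have he' : (t1 < t ∧ t < t2) ∨ (t = t1 ∧ j.val % 2 = 0) ∨ (t = t2 ∧ j.val % 2 = 1) := he
      refine ⟨(j, t), ⟨Set.mem_univ _, ⟨?_, ?_⟩⟩, rfl⟩
      · show t1 ≤ t
        omega
      · show t ≤ t2
        omega
  refine Set.Finite.subset ?_ h1
  exact ((Set.finite_univ.prod (Set.finite_Icc _ _)).image _).union
    ((Set.finite_univ.prod (Set.finite_Icc _ _)).image _)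

/-- `Q` is constant along the links in the rows `t1, …, t2` -/
def Along {n : ℕ} (ω : Fin (2 * n + 1) × ℤ → Bool) (t1 t2 : ℤ) (Q : Edg n → Prop) : Prop :=
  ∀ j t, t1 ≤ t → t ≤ t2 →
    (ω (j, t) = false → (Q (Edg.v j t) ↔ Q (Edg.h (j + 1) t)) ∧
      (Q (Edg.h j t) ↔ Q (Edg.v j (t + 1)))) ∧
    (ω (j, t) = true → (Q (Edg.v j t) ↔ Q (Edg.h j t)) ∧
      (Q (Edg.h (j + 1) t) ↔ Q (Edg.v j (t + 1))))

/-- a strand between two alternating rows which avoids the two exits stays between them -/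
theorem stay {n : ℕ} {ω : Fin (2 * n + 1) × ℤ → Bool} {t1 t2 : ℤ} (h12 : t1 < t2)
    (a1 : AltRow ω t1) (a2 : AltRow ω t2) {Q : Edg n → Prop} (hQ : Along ω t1 t2 Q)
    (q1 : ¬ Q (Edg.h 0 t1)) (q2 : ¬ Q (Edg.v (lst n) t2)) {e e' : Edg n} (hl : Link ω e e') :
    (Reg t1 t2 e ∧ Q e) ↔ (Reg t1 t2 e' ∧ Q e') := by
  have hlast : (lst n).val % 2 = 0 := by simp [lst]
  have hz : ∀ j : Fin (2 * n + 1), j = lst n → j + 1 = 0 := fun j hj => by rw [hj, lst_succ]
  cases hl with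
  | br j t hω =>
    show ((t1 < t ∧ t ≤ t2) ∧ _) ↔
      (((t1 < t ∧ t < t2) ∨ (t = t1 ∧ (j + 1).val % 2 = 0) ∨ (t = t2 ∧ (j + 1).val % 2 = 1)) ∧ _)
    constructor
    · rintro ⟨⟨h1, h2⟩, h3⟩
      have h4 := ((hQ j t h1.le h2).1 hω).1
      refine ⟨?_, h4.1 h3⟩
      rcases h2.lt_or_eq with h2 | h2
      · exact Or.inl ⟨h1, h2⟩
      · subst h2
        have h5 := a2.even hω
        by_cases hj : j = lst n
        · subst hj
          exact absurd h3 q2
        · have := val_succ hj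
          exact Or.inr (Or.inr ⟨rfl, by omega⟩)
    · rintro ⟨h1, h3⟩
      have hr : t1 ≤ t ∧ t ≤ t2 := by omega
      have h4 := ((hQ j t hr.1 hr.2).1 hω).1
      refine ⟨?_, h4.2 h3⟩
      rcases h1 with h1 | h1 | h1
      · exact ⟨h1.1, h1.2.le⟩
      · exfalso
        obtain ⟨h1, h5⟩ := h1
        subst h1
        have h6 := a1.even hω
        by_cases hj : j = lst n
        · rw [hz j hj] at h3
          exact q1 h3
        · have := val_succ hj
          omega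
      · exact ⟨by omega, h1.1.le⟩
  | lt j t hω =>
    show (((t1 < t ∧ t < t2) ∨ (t = t1 ∧ j.val % 2 = 0) ∨ (t = t2 ∧ j.val % 2 = 1)) ∧ _) ↔
      ((t1 < t + 1 ∧ t + 1 ≤ t2) ∧ _)
    constructor
    · rintro ⟨h1, h3⟩
      have hr : t1 ≤ t ∧ t ≤ t2 := by omega
      have h4 := ((hQ j t hr.1 hr.2).1 hω).2
      refine ⟨?_, h4.1 h3⟩
      rcases h1 with h1 | h1 | h1
      · omega
      · omega
      · exfalso
        obtain ⟨h1, h5⟩ := h1
        subst h1
        have h6 := a2.even hω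
        omega
    · rintro ⟨h1, h3⟩
      have h4 := ((hQ j t (by omega) (by omega)).1 hω).2
      refine ⟨?_, h4.2 h3⟩
      by_cases h5 : t1 < t
      · exact Or.inl ⟨h5, by omega⟩
      · have h6 : t = t1 := by omega
        subst h6
        exact Or.inr (Or.inl ⟨rfl, a1.even hω⟩)
  | bl j t hω =>
    show ((t1 < t ∧ t ≤ t2) ∧ _) ↔
      (((t1 < t ∧ t < t2) ∨ (t = t1 ∧ j.val % 2 = 0) ∨ (t = t2 ∧ j.val % 2 = 1)) ∧ _)
    constructor
    · rintro ⟨⟨h1, h2⟩, h3⟩
      have h4 := ((hQ j t h1.le h2).2 hω).1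
      refine ⟨?_, h4.1 h3⟩
      rcases h2.lt_or_eq with h2 | h2
      · exact Or.inl ⟨h1, h2⟩
      · subst h2
        exact Or.inr (Or.inr ⟨rfl, a2.odd hω⟩)
    · rintro ⟨h1, h3⟩
      have hr : t1 ≤ t ∧ t ≤ t2 := by omega
      have h4 := ((hQ j t hr.1 hr.2).2 hω).1
      refine ⟨?_, h4.2 h3⟩
      rcases h1 with h1 | h1 | h1
      · exact ⟨h1.1, h1.2.le⟩
      · exfalso
        obtain ⟨h1, h5⟩ := h1
        subst h1
        have h6 := a1.odd hω
        omega
      · exact ⟨by omega, h1.1.le⟩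
  | rt j t hω =>
    show (((t1 < t ∧ t < t2) ∨ (t = t1 ∧ (j + 1).val % 2 = 0) ∨
        (t = t2 ∧ (j + 1).val % 2 = 1)) ∧ _) ↔
      ((t1 < t + 1 ∧ t + 1 ≤ t2) ∧ _)
    constructor
    · rintro ⟨h1, h3⟩
      have hr : t1 ≤ t ∧ t ≤ t2 := by omega
      have h4 := ((hQ j t hr.1 hr.2).2 hω).2
      refine ⟨?_, h4.1 h3⟩
      rcases h1 with h1 | h1 | h1
      · omega
      · omega
      · exfalso
        obtain ⟨h1, h5⟩ := h1
        subst h1
        have h6 := a2.odd hω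
        have hj : j ≠ lst n := fun h => by rw [h] at h6; omega
        have := val_succ hj
        omega
    · rintro ⟨h1, h3⟩
      have h4 := ((hQ j t (by omega) (by omega)).2 hω).2
      refine ⟨?_, h4.2 h3⟩
      by_cases h5 : t1 < t
      · exact Or.inl ⟨h5, by omega⟩
      · have h6 : t = t1 := by omega
        subst h6
        have h7 := a1.odd hω
        have hj : j ≠ lst n := fun h => by rw [h] at h7; omega
        have := val_succ hj
        exact Or.inr (Or.inl ⟨rfl, by omega⟩)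

theorem stay_strand {n : ℕ} {ω : Fin (2 * n + 1) × ℤ → Bool} {t1 t2 : ℤ} (h12 : t1 < t2)
    (a1 : AltRow ω t1) (a2 : AltRow ω t2) {Q : Edg n → Prop} (hQ : Along ω t1 t2 Q)
    (q1 : ¬ Q (Edg.h 0 t1)) (q2 : ¬ Q (Edg.v (lst n) t2)) {e : Edg n} (he : Reg t1 t2 e)
    (hq : Q e) : (strand ω e).Finite := by
  refine (reg_finite h12).subset ?_
  intro e' he'
  have h := invar (l := fun e => (Reg t1 t2 e ∧ Q e))
    (fun e e' hl => propext (stay h12 a1 a2 hQ q1 q2 hl)) he'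
  have h2 : (Reg t1 t2 e' ∧ Q e') := by
    have h3 : (Reg t1 t2 e ∧ Q e) = (Reg t1 t2 e' ∧ Q e') := h
    rw [← h3]
    exact ⟨he, hq⟩
  exact h2.1

end Pool.Agent.Helper21.ID
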