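import Pool.Agent.Helper21.ID.Det

/-!
# From strands to patterns: flux and parity
-/

namespace Pool.Agent.Helper21.ID

open Pool.Agent.H974R3 Pool.Agent.H988R4 Pool.Agent.H988R3

/-- an orientation (or a superposition of orientations) of the strands in the rows `a ≤ t < b`:
upward flux through `v`, rightward flux through `h` -/
structure IsFlux {n : ℕ} (ω : Fin (2 * n + 1) × ℤ → Bool) (F : Edg n → ℤ) (a b : ℤ) : Prop where
  f : ∀ j t, a ≤ t → t < b → ω (j, t) = false →
    F (Edg.v j t) = F (Edg.h (j + 1) t) ∧ F (Edg.v j (t + 1)) = F (Edg.h j t)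
  t : ∀ j t, a ≤ t → t < b → ω (j, t) = true →
    F (Edg.v j t) = -F (Edg.h j t) ∧ F (Edg.v j (t + 1)) = -F (Edg.h (j + 1) t)

theorem flux_rows {m : ℕ} (c : ℕ → Fin (m + 1) → Bool) (σ : Pat (m + 1)) (M : ℕ) :
    ∀ φ : Vx (m + 1) → ℤ, Flux (rows m c M σ) φ →
    ∃ (Φ : ℕ → Vx (m + 1) → ℤ) (H : ℕ → Fin (m + 1) → ℤ), Φ M = φ ∧
      ∀ t < M, FRules m (c t) (fun p => Φ t (some p)) (fun p => Φ (t + 1) (some p)) (H t) := by
  induction M with
  | zero =>
    intro φ _
    exact ⟨fun _ => φ, fun _ _ => 0, rfl, fun t ht => absurd ht (Nat.not_lt_zero t)⟩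
  | succ M ih =>
    intro φ hφ
    obtain ⟨ψ, Hc, h1, -, h2⟩ := flux_row (c M) (rows m c M σ) φ hφ
    obtain ⟨Φ, H, h3, h4⟩ := ih ψ h1
    refine ⟨fun t => if t = M + 1 then φ else Φ t, fun t => if t = M then Hc else H t,
      if_pos rfl, ?_⟩
    intro t ht
    by_cases hM : t = M
    · subst hM
      have e1 : (if t = t + 1 then φ else Φ t) = ψ := by rw [if_neg (by omega), h3]
      simp only [e1, if_true]
      exact h2
    · have e1 : (if t = M + 1 then φ else Φ t) = Φ t := if_neg (by omega)
      have e2 : (if t + 1 = M + 1 then φ else Φ (t + 1)) = Φ (t + 1) := if_neg (by omega)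
      have e3 : (if t = M then Hc else H t) = H t := if_neg hM
      simp only [e1, e2, e3]
      exact h4 t (by omega)

theorem fix_ix {n : ℕ} (j : Fin (2 * n + 1)) : ∃ k : ℕ, ix (2 * n) (k + 1) = j ∧
    ix (2 * n) k = j - 1 := by
  refine ⟨(j - 1).val, ?_, ?_⟩
  · rw [← ix_succ, CMP.ix_self, sub_add_cancel]
  · exact CMP.ix_self _ _

theorem exists_flux {n : ℕ} (ω : Fin (2 * n + 1) × ℤ → Bool) (t0 : ℤ) (M : ℕ)
    (σ τ : Pat (2 * n + 1)) (φ : Vx (2 * n + 1) → ℤ)
    (h1 : Flux (rows (2 * n) (lowc ω t0 M) M σ) φ) (h2 : Flux (rows (2 * n) (uppc ω t0 M) M τ) φ) :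
    ∃ F : Edg n → ℤ, IsFlux ω F (t0 - M) (t0 + M) ∧ ∀ j, F (Edg.v j t0) = φ (some j) := by
  obtain ⟨Φ, H, a1, a2⟩ := flux_rows (lowc ω t0 M) σ M φ h1
  have h2' : Flux (rows (2 * n) (uppc ω t0 M) M τ) (fun v => -φ v) := by
    intro v
    simp only [h2 v]
  obtain ⟨Φ', H', b1, b2⟩ := flux_rows (uppc ω t0 M) τ M (fun v => -φ v) h2'
  refine ⟨fun e => match e with
    | Edg.v j t => if t ≤ t0 then Φ (t - (t0 - M)).toNat (some j)
        else -Φ' (t0 + M - t).toNat (some j)
    | Edg.h j t => if t < t0 then H (t - (t0 - M)).toNat (j - 1)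
        else H' (t0 + M - 1 - t).toNat (j - 1), ?_, ?_⟩
  · constructor
    · intro j t g1 g2 hω
      obtain ⟨k, hk1, hk2⟩ := fix_ix j
      by_cases ht : t < t0
      · have hs : (t - (t0 - M)).toNat < M := by omega
        have hr := a2 _ hs
        have hc : lowc ω t0 M (t - (t0 - M)).toNat (ix (2 * n) (k + 1)) = false := by
          unfold lowc
          rw [hk1]
          have : t0 - (M : ℤ) + ((t - (t0 - M)).toNat : ℤ) = t := by omega
          rw [this]; exact hω
        have hf := hr.f k hc
        rw [hk1, hk2] at hf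
        have e1 : (t + 1 - (t0 - M)).toNat = (t - (t0 - M)).toNat + 1 := by omega
        constructor
        · show (if t ≤ t0 then _ else _) = (if t < t0 then _ else _)
          rw [if_pos ht.le, if_pos ht, add_sub_cancel_right]
          exact hf.1
        · show (if t + 1 ≤ t0 then _ else _) = (if t < t0 then _ else _)
          rw [if_pos (by omega), if_pos ht, e1]
          exact hf.2
      · have hs : (t0 + M - 1 - t).toNat < M := by omega
        have hr := b2 _ hs
        have hc : uppc ω t0 M (t0 + M - 1 - t).toNat (ix (2 * n) (k + 1)) = true := by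
          unfold uppc
          rw [hk1]
          have : t0 + (M : ℤ) - 1 - ((t0 + M - 1 - t).toNat : ℤ) = t := by omega
          rw [this, hω]; rfl
        have hf := hr.t k hc
        rw [hk1, hk2] at hf
        have e1 : (t0 + M - 1 - t).toNat + 1 = (t0 + M - t).toNat := by omega
        have e2 : (t0 + M - (t + 1)).toNat = (t0 + M - 1 - t).toNat := by omega
        rw [e1] at hf
        constructor
        · show (if t ≤ t0 then _ else _) = (if t < t0 then _ else _)
          rw [if_neg ht, add_sub_cancel_right]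
          by_cases ht' : t ≤ t0
          · have ht0 : t = t0 := by omega
            subst ht0
            have e3 : (t - (t - (M : ℤ))).toNat = M := by omega
            have e4 : (t + (M : ℤ) - t).toNat = M := by omega
            rw [if_pos le_rfl, e3, a1]
            have := hf.2
            rw [e4, b1] at this
            linarith
          · rw [if_neg ht']
            have := hf.2
            linarith
        · show (if t + 1 ≤ t0 then _ else _) = (if t < t0 then _ else _)
          rw [if_neg (by omega), if_neg ht, e2]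
          have := hf.1
          linarith
    · intro j t g1 g2 hω
      obtain ⟨k, hk1, hk2⟩ := fix_ix j
      by_cases ht : t < t0
      · have hs : (t - (t0 - M)).toNat < M := by omega
        have hr := a2 _ hs
        have hc : lowc ω t0 M (t - (t0 - M)).toNat (ix (2 * n) (k + 1)) = true := by
          unfold lowc
          rw [hk1]
          have : t0 - (M : ℤ) + ((t - (t0 - M)).toNat : ℤ) = t := by omega
          rw [this]; exact hω
        have hf := hr.t k hc
        rw [hk1, hk2] at hf
        have e1 : (t + 1 - (t0 - M)).toNat = (t - (t0 - M)).toNat + 1 := by omega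
        constructor
        · show (if t ≤ t0 then _ else _) = -(if t < t0 then _ else _)
          rw [if_pos ht.le, if_pos ht]
          exact hf.1
        · show (if t + 1 ≤ t0 then _ else _) = -(if t < t0 then _ else _)
          rw [if_pos (by omega), if_pos ht, e1, add_sub_cancel_right]
          exact hf.2
      · have hs : (t0 + M - 1 - t).toNat < M := by omega
        have hr := b2 _ hs
        have hc : uppc ω t0 M (t0 + M - 1 - t).toNat (ix (2 * n) (k + 1)) = false := by
          unfold uppc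
          rw [hk1]
          have : t0 + (M : ℤ) - 1 - ((t0 + M - 1 - t).toNat : ℤ) = t := by omega
          rw [this, hω]; rfl
        have hf := hr.f k hc
        rw [hk1, hk2] at hf
        have e1 : (t0 + M - 1 - t).toNat + 1 = (t0 + M - t).toNat := by omega
        have e2 : (t0 + M - (t + 1)).toNat = (t0 + M - 1 - t).toNat := by omega
        rw [e1] at hf
        constructor
        · show (if t ≤ t0 then _ else _) = -(if t < t0 then _ else _)
          rw [if_neg ht]
          by_cases ht' : t ≤ t0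
          · have ht0 : t = t0 := by omega
            subst ht0
            have e3 : (t - (t - (M : ℤ))).toNat = M := by omega
            have e4 : (t + (M : ℤ) - t).toNat = M := by omega
            rw [if_pos le_rfl, e3, a1]
            have := hf.2
            rw [e4, b1] at this
            linarith
          · rw [if_neg ht']
            have := hf.2
            linarith
        · show (if t + 1 ≤ t0 then _ else _) = -(if t < t0 then _ else _)
          rw [if_neg (by omega), if_neg ht, e2, add_sub_cancel_right]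
          have := hf.1
          linarith
  · intro j
    show (if t0 ≤ t0 then Φ (t0 - (t0 - M)).toNat (some j) else _) = _
    have e : (t0 - (t0 - (M : ℤ))).toNat = M := by omega
    rw [if_pos le_rfl, e, a1]

/-- conservation of the flux -/
theorem flux_total_step {n : ℕ} {ω : Fin (2 * n + 1) × ℤ → Bool} {F : Edg n → ℤ} {a b : ℤ}
    (hF : IsFlux ω F a b) {t : ℤ} (h1 : a ≤ t) (h2 : t < b) :
    ∑ j, F (Edg.v j (t + 1)) = ∑ j, F (Edg.v j t) := by
  have h3 : ∀ j, F (Edg.v j t) - F (Edg.v j (t + 1)) = F (Edg.h (j + 1) t) - F (Edg.h j t) := by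
    intro j
    cases hω : ω (j, t) with
    | false =>
      have := hF.f j t h1 h2 hω
      rw [this.1, this.2]
    | true =>
      have := hF.t j t h1 h2 hω
      rw [this.1, this.2]
      ring
  have h4 : ∑ j : Fin (2 * n + 1), F (Edg.h (j + 1) t) = ∑ j, F (Edg.h j t) :=
    Equiv.sum_comp (Equiv.addRight (1 : Fin (2 * n + 1))) (fun j => F (Edg.h j t))
  have h5 : ∑ j, (F (Edg.v j t) - F (Edg.v j (t + 1))) = 0 := by
    simp only [h3]
    rw [Finset.sum_sub_distrib, h4, sub_self]
  rw [Finset.sum_sub_distrib] at h5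
  linarith

theorem flux_total {n : ℕ} {ω : Fin (2 * n + 1) × ℤ → Bool} {F : Edg n → ℤ} {a b : ℤ}
    (hF : IsFlux ω F a b) {t : ℤ} (h1 : a ≤ t) (k : ℕ) (h2 : t + k ≤ b) :
    ∑ j, F (Edg.v j (t + k)) = ∑ j, F (Edg.v j t) := by
  induction k with
  | zero => simp
  | succ k ih =>
    rw [← ih (by push_cast at h2; omega)]
    have e : t + ((k + 1 : ℕ) : ℤ) = t + k + 1 := by push_cast; ring
    rw [e]
    exact flux_total_step hF (by omega) (by push_cast at h2; omega)

/-- cancellation in pairs -/
theorem sum_pairs {A : Type*} [AddCommGroup A] (g : ℕ → A) (n : ℕ)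
    (h : ∀ i < n, g (2 * i) + g (2 * i + 1) = 0) : ∑ k ∈ Finset.range (2 * n), g k = 0 := by
  induction n with
  | zero => simp
  | succ n ih =>
    rw [show 2 * (n + 1) = 2 * n + 1 + 1 by ring, Finset.sum_range_succ, Finset.sum_range_succ,
      ih (fun i hi => h i (by omega)), zero_add]
    exact h n (by omega)

theorem sum_alt {A : Type*} [AddCommGroup A] {n : ℕ} (g : Fin (2 * n + 1) → A)
    (h : ∀ j : Fin (2 * n + 1), j.val % 2 = 0 → j ≠ lst n → g j + g (j + 1) = 0) :
    ∑ j, g j = g (lst n) := by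
  have h1 : ∑ j, g j = ∑ k ∈ Finset.range (2 * n + 1), g (ix (2 * n) k) := by
    rw [Finset.sum_range]
    refine Finset.sum_congr rfl fun j _ => ?_
    rw [CMP.ix_self]
  rw [h1, Finset.sum_range_succ, sum_pairs, zero_add]
  · congr 1
    ext
    simp [ix, lst]
  · intro i hi
    have h2 : (ix (2 * n) (2 * i)).val = 2 * i := Nat.mod_eq_of_lt (by omega)
    rw [← ix_succ]
    apply h
    · omega
    · intro h3
      have := congrArg Fin.val h3
      rw [h2] at this
      simp [lst] at this
      omega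

theorem flux_last {n : ℕ} {ω : Fin (2 * n + 1) × ℤ → Bool} {F : Edg n → ℤ} {a b : ℤ}
    (hF : IsFlux ω F a b) {t : ℤ} (h1 : a ≤ t) (h2 : t < b) (ha : AltRow ω t) :
    ∑ j, F (Edg.v j t) = F (Edg.v (lst n) t) := by
  apply sum_alt (fun j => F (Edg.v j t))
  intro j hj hl
  have e0 : ω (j, t) = false := by rw [ha j]; simp [hj]
  have e1 : ω (j + 1, t) = true := by
    rw [ha (j + 1), val_succ hl]
    simp only [decide_eq_true_eq]
    omega
  rw [(hF.f j t h1 h2 e0).1, (hF.t (j + 1) t h1 h2 e1).1]
  ring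

/-- **Key lemma.** If there are alternating rows in the slab below and above the level `t0` and the
strand `j` of this level does not lie on the infinite line of the picture, then its strand is
finite. -/
theorem finite_of_not_conn {n : ℕ} (ω : Fin (2 * n + 1) × ℤ → Bool) (t0 : ℤ) (M : ℕ)
    (σ τ : Pat (2 * n + 1)) (j : Fin (2 * n + 1)) (t1 t2 : ℤ) (h1 : t0 - M ≤ t1) (h1' : t1 < t0)
    (h2 : t0 ≤ t2) (h2' : t2 < t0 + M) (a1 : AltRow ω t1) (a2 : AltRow ω t2)
    (h : ¬ Conn (rows (2 * n) (lowc ω t0 M) M σ).1 (rows (2 * n) (uppc ω t0 M) M τ).1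
      (some j) none) : (strand ω (Edg.v j t0)).Finite := by
  set s := rows (2 * n) (lowc ω t0 M) M σ with hs
  set u := rows (2 * n) (uppc ω t0 M) M τ with hu
  have hex : ∃ g : Vx (2 * n + 1) → Bool, (∀ v, g (s.1 v) = g v) ∧ (∀ v, g (u.1 v) = g v) ∧
      g (some j) = true ∧ g none = false := by
    unfold Conn at h
    push Not at h
    obtain ⟨g, g1, g2, g3⟩ := h
    cases hn : g none with
    | false =>
      refine ⟨g, g1, g2, ?_, hn⟩
      rw [hn] at g3
      simpa using g3
    | true =>
      refine ⟨fun v => !g v, fun v => by simp only [g1], fun v => by simp only [g2], ?_, by simp [hn]⟩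
      rw [hn] at g3
      have : g (some j) = false := by simpa using g3
      simp [this]
  obtain ⟨g, g1, g2, g3, g4⟩ := hex
  obtain ⟨r, hr⟩ := exists_alt s.1 u.1 s.2.inv s.2.nofix u.2.inv u.2.nofix
  set φ : Vx (2 * n + 1) → ℤ := fun v => if g v = true then (if r v = true then 1 else -1) else 0
    with hφ
  have hflip : ∀ x : Bool, (if (!x) = true then (1 : ℤ) else -1) = -(if x = true then 1 else -1) := by
    intro x; cases x <;> simp
  have f1 : Flux s φ := by
    intro v
    show (if g (s.1 v) = true then (if r (s.1 v) = true then (1 : ℤ) else -1) else 0)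
      = -(if g v = true then (if r v = true then 1 else -1) else 0)
    rw [g1, hr.1 v]
    by_cases h3 : g v = true
    · rw [if_pos h3, if_pos h3]
      exact hflip _
    · rw [if_neg h3, if_neg h3]
      rfl
  have f2 : Flux u φ := by
    intro v
    show (if g (u.1 v) = true then (if r (u.1 v) = true then (1 : ℤ) else -1) else 0)
      = -(if g v = true then (if r v = true then 1 else -1) else 0)
    rw [g2, hr.2 v]
    by_cases h3 : g v = true
    · rw [if_pos h3, if_pos h3]
      exact hflip _
    · rw [if_neg h3, if_neg h3]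
      rfl
  obtain ⟨F, hF, hF0⟩ := exists_flux ω t0 M σ τ φ f1 f2
  have htot : ∑ i, F (Edg.v i t0) = 0 := by
    simp only [hF0]
    rw [sum_flux f1]
    simp [hφ, g4]
  have htot1 : ∑ i, F (Edg.v i t1) = 0 := by
    have := flux_total hF (t := t1) h1 (t0 - t1).toNat (by omega)
    rw [show t1 + ((t0 - t1).toNat : ℤ) = t0 by omega, htot] at this
    exact this.symm
  have htot2 : ∑ i, F (Edg.v i t2) = 0 := by
    have := flux_total hF (t := t0) (by omega) (t2 - t0).toNat (by omega)
    rw [show t0 + ((t2 - t0).toNat : ℤ) = t2 by omega, htot] at this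
    exact this
  rw [flux_last hF h1 (by omega) a1] at htot1
  rw [flux_last hF (by omega) h2' a2] at htot2
  have hneg : ∀ a b : ℤ, a = -b → (a ≠ 0 ↔ b ≠ 0) := by
    intro a b hab
    rw [hab]
    simp
  apply stay_strand (t1 := t1) (t2 := t2) (by omega) a1 a2 (Q := fun e => F e ≠ 0)
  · intro i t c1 c2
    refine ⟨fun hω => ?_, fun hω => ?_⟩
    · have := hF.f i t (by omega) (by omega) hω
      constructor
      · show F (Edg.v i t) ≠ 0 ↔ F (Edg.h (i + 1) t) ≠ 0
        rw [this.1]
      · show F (Edg.h i t) ≠ 0 ↔ F (Edg.v i (t + 1)) ≠ 0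
        rw [this.2]
    · have := hF.t i t (by omega) (by omega) hω
      exact ⟨hneg _ _ this.1, (hneg _ _ this.2).symm⟩
  · have h5 : ω (lst n, t1) = false := by rw [a1]; simp [lst]
    have h6 := (hF.f (lst n) t1 h1 (by omega) h5).1
    rw [lst_succ, htot1] at h6
    simpa using h6.symm
  · simpa using htot2
  · exact ⟨h1', h2⟩
  · show F (Edg.v j t0) ≠ 0
    rw [hF0, hφ]
    simp only [g3, if_true]
    split_ifs <;> norm_num

/-! ### parity -/

theorem parity_step {n : ℕ} {ω : Fin (2 * n + 1) × ℤ → Bool} {l : Edg n → ZMod 2}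
    (hl : ∀ e e', Link ω e e' → l e = l e') (t : ℤ) :
    ∑ j, l (Edg.v j (t + 1)) = ∑ j, l (Edg.v j t) := by
  have h3 : ∀ j, l (Edg.v j t) - l (Edg.v j (t + 1)) = l (Edg.h (j + 1) t) - l (Edg.h j t) := by
    intro j
    cases hω : ω (j, t) with
    | false => rw [hl _ _ (Link.br j t hω), hl _ _ (Link.lt j t hω)]
    | true =>
      rw [hl _ _ (Link.bl j t hω), hl _ _ (Link.rt j t hω)]
      have : ∀ a b : ZMod 2, a - b = b - a := by decide
      exact this _ _
  have h4 : ∑ j : Fin (2 * n + 1), l (Edg.h (j + 1) t) = ∑ j, l (Edg.h j t) :=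
    Equiv.sum_comp (Equiv.addRight (1 : Fin (2 * n + 1))) (fun j => l (Edg.h j t))
  have h5 : ∑ j, (l (Edg.v j t) - l (Edg.v j (t + 1))) = 0 := by
    simp only [h3]
    rw [Finset.sum_sub_distrib, h4, sub_self]
  rw [Finset.sum_sub_distrib] at h5
  exact (sub_eq_zero.1 h5).symm

theorem parity {n : ℕ} {ω : Fin (2 * n + 1) × ℤ → Bool} {l : Edg n → ZMod 2}
    (hl : ∀ e e', Link ω e e' → l e = l e') (s t : ℤ) :
    ∑ j, l (Edg.v j s) = ∑ j, l (Edg.v j t) := by
  have key : ∀ (a : ℤ) (k : ℕ), ∑ j, l (Edg.v j (a + k)) = ∑ j, l (Edg.v j a) := by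
    intro a k
    induction k with
    | zero => simp
    | succ k ih =>
      rw [← ih]
      have e : a + ((k + 1 : ℕ) : ℤ) = a + k + 1 := by push_cast; ring
      rw [e]
      exact parity_step hl _
  rcases le_total s t with h | h
  · have := key s (t - s).toNat
    rw [show s + ((t - s).toNat : ℤ) = t by omega] at this
    exact this.symm
  · have := key t (s - t).toNat
    rw [show t + ((s - t).toNat : ℤ) = s by omega] at this
    exact this

theorem parity_last {n : ℕ} {ω : Fin (2 * n + 1) × ℤ → Bool} {l : Edg n → ZMod 2}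
    (hl : ∀ e e', Link ω e e' → l e = l e') {t : ℤ} (ha : AltRow ω t) :
    ∑ j, l (Edg.v j t) = l (Edg.v (lst n) t) := by
  apply sum_alt (fun j => l (Edg.v j t))
  intro j hj hne
  have e0 : ω (j, t) = false := by rw [ha j]; simp [hj]
  have e1 : ω (j + 1, t) = true := by
    rw [ha (j + 1), val_succ hne]
    simp only [decide_eq_true_eq]
    omega
  rw [hl _ _ (Link.br j t e0), hl _ _ (Link.bl (j + 1) t e1)]
  have : ∀ a : ZMod 2, a + a = 0 := by decide
  exact this _

/-- a strand passes through all or none of the gates of the alternating rows -/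
theorem gates {n : ℕ} (ω : Fin (2 * n + 1) × ℤ → Bool) (e : Edg n) {s t : ℤ} (hs : AltRow ω s)
    (ht : AltRow ω t) (h : Edg.v (lst n) s ∈ strand ω e) : Edg.v (lst n) t ∈ strand ω e := by
  classical
  set l : Edg n → ZMod 2 := fun e' => if e' ∈ strand ω e then 1 else 0 with hldef
  have hl : ∀ e1 e2, Link ω e1 e2 → l e1 = l e2 := by
    intro e1 e2 hee
    have h1 : e1 ∈ strand ω e ↔ e2 ∈ strand ω e :=
      ⟨fun h1 => Relation.EqvGen.trans _ _ _ h1 (Relation.EqvGen.rel _ _ hee),
        fun h1 => Relation.EqvGen.trans _ _ _ h1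
          (Relation.EqvGen.symm _ _ (Relation.EqvGen.rel _ _ hee))⟩
    rw [hldef]
    simp only [h1]
  have h1 := parity hl s t
  rw [parity_last hl hs, parity_last hl ht] at h1
  have h2 : l (Edg.v (lst n) s) = 1 := by rw [hldef]; simp only [h, if_true]
  by_contra h3
  have h4 : l (Edg.v (lst n) t) = 0 := by rw [hldef]; simp only [h3, if_false]
  rw [h2, h4] at h1
  exact absurd h1 (by decide)

/-- there are alternating rows arbitrarily far below and above -/
def Good {n : ℕ} (ω : Fin (2 * n + 1) × ℤ → Bool) : Prop :=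
  ∀ t : ℤ, (∃ s < t, AltRow ω s) ∧ ∃ s, t ≤ s ∧ AltRow ω s

theorem gate_h {n : ℕ} {ω : Fin (2 * n + 1) × ℤ → Bool} {t : ℤ} (ht : AltRow ω t) :
    Link ω (Edg.v (lst n) t) (Edg.h 0 t) := by
  have h5 : ω (lst n, t) = false := by rw [ht]; simp [lst]
  have := Link.br (lst n) t h5
  rwa [lst_succ] at this

theorem infinite_iff {n : ℕ} {ω : Fin (2 * n + 1) × ℤ → Bool} (hg : Good ω) (e : Edg n) {t : ℤ}
    (hat : AltRow ω t) : (strand ω e).Infinite ↔ Edg.v (lst n) t ∈ strand ω e := by
  constructor
  · intro hinf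
    by_contra hcon
    obtain ⟨t1, h1, a1⟩ := (hg (ht e)).1
    obtain ⟨t2, h2, a2⟩ := (hg (ht e + 1)).2
    apply hinf
    have hclosed : ∀ e1 e2, Link ω e1 e2 → (e1 ∈ strand ω e ↔ e2 ∈ strand ω e) := fun e1 e2 hee =>
      ⟨fun h1 => Relation.EqvGen.trans _ _ _ h1 (Relation.EqvGen.rel _ _ hee),
        fun h1 => Relation.EqvGen.trans _ _ _ h1
          (Relation.EqvGen.symm _ _ (Relation.EqvGen.rel _ _ hee))⟩
    apply stay_strand (t1 := t1) (t2 := t2) (by omega) a1 a2 (Q := fun e' => e' ∈ strand ω e)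
    · intro i s c1 c2
      exact ⟨fun hω => ⟨hclosed _ _ (Link.br _ _ hω), hclosed _ _ (Link.lt _ _ hω)⟩,
        fun hω => ⟨hclosed _ _ (Link.bl _ _ hω), hclosed _ _ (Link.rt _ _ hω)⟩⟩
    · intro h3
      exact hcon (gates ω e a1 hat ((hclosed _ _ (gate_h a1)).2 h3))
    · intro h3
      exact hcon (gates ω e a2 hat h3)
    · rcases e with ⟨j, s⟩ | ⟨j, s⟩
      · have h1' : t1 < s := h1
        have h2' : s + 1 ≤ t2 := h2
        exact ⟨h1', by omega⟩
      · have h1' : t1 < s := h1
        have h2' : s + 1 ≤ t2 := h2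
        exact Or.inl ⟨h1', by omega⟩
    · exact Relation.EqvGen.refl _
  · intro h hfin
    obtain ⟨B, hB⟩ := (hfin.image ht).bddAbove
    obtain ⟨s, hs1, hs2⟩ := (hg (B + 1)).2
    have h1 := gates ω e hat hs2 h
    have h2 : ht (Edg.v (lst n) s) ≤ B := hB ⟨_, h1, rfl⟩
    have h3 : s ≤ B := h2
    omega

/-- there is exactly one infinite strand -/
theorem exists_unique {n : ℕ} {ω : Fin (2 * n + 1) × ℤ → Bool} (hg : Good ω) :
    ∃! S : Set (Edg n), S.Infinite ∧ ∃ e, S = strand ω e := by
  obtain ⟨t, _, ht⟩ := (hg 0).2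
  refine ⟨strand ω (Edg.v (lst n) t), ⟨?_, _, rfl⟩, ?_⟩
  · rw [infinite_iff hg _ ht]
    exact Relation.EqvGen.refl _
  · rintro S ⟨h1, e, rfl⟩
    rw [infinite_iff hg _ ht] at h1
    ext e'
    exact ⟨fun h2 => Relation.EqvGen.trans _ _ _ (Relation.EqvGen.symm _ _ h1) h2,
      fun h2 => Relation.EqvGen.trans _ _ _ h1 h2⟩

end Pool.Agent.Helper21.ID
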