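import Pool.Agent.Helper21.ID.Law

/-!
# The density of the infinite strand
-/

namespace Pool.Agent.Helper21.ID

open Pool.Agent.H974R3 MeasureTheory ProbabilityTheory Filter Topology

/-! ### measurability -/

instance (n : ℕ) : Countable (Edg n) := by
  have h : Function.Injective (fun e : Edg n => match e with
    | Edg.v j t => ((Sum.inl (j, t) : (Fin (2 * n + 1) × ℤ) ⊕ (Fin (2 * n + 1) × ℤ)))
    | Edg.h j t => Sum.inr (j, t)) := by
    intro e e' h
    rcases e with ⟨j, t⟩ | ⟨j, t⟩ <;> rcases e' with ⟨j', t'⟩ | ⟨j', t'⟩ <;> simp_all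
  exact h.countable

theorem measurableSet_coord {n : ℕ} (z : Fin (2 * n + 1) × ℤ) (b : Bool) :
    MeasurableSet {ω : Fin (2 * n + 1) × ℤ → Bool | ω z = b} := by
  show MeasurableSet ((fun f : Fin (2 * n + 1) × ℤ → Bool => f z) ⁻¹' {b})
  exact measurableSet_preimage (measurable_pi_apply z) (measurableSet_singleton b)

theorem measurableSet_link {n : ℕ} (e e' : Edg n) :
    MeasurableSet {ω : Fin (2 * n + 1) × ℤ → Bool | Link ω e e'} := by
  have h : {ω : Fin (2 * n + 1) × ℤ → Bool | Link ω e e'} = ⋃ z : Fin (2 * n + 1) × ℤ,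
      (({ω | ω z = false} ∩ {_ω | (e = Edg.v z.1 z.2 ∧ e' = Edg.h (z.1 + 1) z.2) ∨
          (e = Edg.h z.1 z.2 ∧ e' = Edg.v z.1 (z.2 + 1))}) ∪
        ({ω | ω z = true} ∩ {_ω | (e = Edg.v z.1 z.2 ∧ e' = Edg.h z.1 z.2) ∨
          (e = Edg.h (z.1 + 1) z.2 ∧ e' = Edg.v z.1 (z.2 + 1))})) := by
    ext ω
    simp only [Set.mem_iUnion, Set.mem_union, Set.mem_inter_iff]
    constructor
    · intro hl
      cases hl with
      | br j t hω => exact ⟨(j, t), Or.inl ⟨hω, Or.inl ⟨rfl, rfl⟩⟩⟩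
      | lt j t hω => exact ⟨(j, t), Or.inl ⟨hω, Or.inr ⟨rfl, rfl⟩⟩⟩
      | bl j t hω => exact ⟨(j, t), Or.inr ⟨hω, Or.inl ⟨rfl, rfl⟩⟩⟩
      | rt j t hω => exact ⟨(j, t), Or.inr ⟨hω, Or.inr ⟨rfl, rfl⟩⟩⟩
    · rintro ⟨⟨j, t⟩, ⟨hω, ⟨rfl, rfl⟩ | ⟨rfl, rfl⟩⟩ | ⟨hω, ⟨rfl, rfl⟩ | ⟨rfl, rfl⟩⟩⟩
      · exact Link.br _ _ hω
      · exact Link.lt _ _ hω
      · exact Link.bl _ _ hω
      · exact Link.rt _ _ hω
  rw [h]
  refine MeasurableSet.iUnion fun z => ?_
  exact ((measurableSet_coord z _).inter (MeasurableSet.const _)).union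
    ((measurableSet_coord z _).inter (MeasurableSet.const _))

/-- edges reached in `k` steps -/
def reach {n : ℕ} (ω : Fin (2 * n + 1) × ℤ → Bool) (e : Edg n) : ℕ → Edg n → Prop
  | 0, e' => e = e'
  | (k + 1), e' => ∃ e1, reach ω e k e1 ∧ (Link ω e1 e' ∨ Link ω e' e1)

theorem reach_eqv {n : ℕ} {ω : Fin (2 * n + 1) × ℤ → Bool} {e : Edg n} {k : ℕ} {e' : Edg n}
    (h : reach ω e k e') : Relation.EqvGen (Link ω) e e' := by
  induction k generalizing e' with
  | zero => rw [show e = e' from h]; exact Relation.EqvGen.refl _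
  | succ k ih =>
    obtain ⟨e1, h1, h2⟩ := h
    refine Relation.EqvGen.trans _ _ _ (ih h1) ?_
    rcases h2 with h2 | h2
    · exact Relation.EqvGen.rel _ _ h2
    · exact Relation.EqvGen.symm _ _ (Relation.EqvGen.rel _ _ h2)

theorem reach_trans {n : ℕ} {ω : Fin (2 * n + 1) × ℤ → Bool} {e e1 : Edg n} {k l : ℕ} {e' : Edg n}
    (h : reach ω e k e1) (h' : reach ω e1 l e') : reach ω e (k + l) e' := by
  induction l generalizing e' with
  | zero => rw [← show e1 = e' from h']; exact h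
  | succ l ih =>
    obtain ⟨e2, h1, h2⟩ := h'
    exact ⟨e2, ih h1, h2⟩

theorem reach_symm {n : ℕ} {ω : Fin (2 * n + 1) × ℤ → Bool} {e : Edg n} {k : ℕ} {e' : Edg n}
    (h : reach ω e k e') : reach ω e' k e := by
  induction k generalizing e' with
  | zero => exact (show e = e' from h).symm
  | succ k ih =>
    obtain ⟨e1, h1, h2⟩ := h
    have h3 : reach ω e' 1 e1 := ⟨e', rfl, h2.symm⟩
    have h4 := reach_trans h3 (ih h1)
    rwa [add_comm] at h4

theorem strand_reach {n : ℕ} (ω : Fin (2 * n + 1) × ℤ → Bool) (e e' : Edg n) :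
    e' ∈ strand ω e ↔ ∃ k, reach ω e k e' := by
  constructor
  · intro h
    have h' : Relation.EqvGen (Link ω) e e' := h
    clear h
    induction h' with
    | rel x y h => exact ⟨1, x, rfl, Or.inl h⟩
    | refl x => exact ⟨0, rfl⟩
    | symm x y _ ih => obtain ⟨k, hk⟩ := ih; exact ⟨k, reach_symm hk⟩
    | trans x y z _ _ ih1 ih2 =>
      obtain ⟨k, hk⟩ := ih1
      obtain ⟨l, hl⟩ := ih2
      exact ⟨k + l, reach_trans hk hl⟩
  · rintro ⟨k, hk⟩
    exact reach_eqv hk

theorem measurableSet_reach {n : ℕ} (e : Edg n) (k : ℕ) (e' : Edg n) :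
    MeasurableSet {ω : Fin (2 * n + 1) × ℤ → Bool | reach ω e k e'} := by
  induction k generalizing e' with
  | zero => exact MeasurableSet.const _
  | succ k ih =>
    have h : {ω : Fin (2 * n + 1) × ℤ → Bool | reach ω e (k + 1) e'} =
        ⋃ e1 : Edg n, ({ω | reach ω e k e1} ∩ ({ω | Link ω e1 e'} ∪ {ω | Link ω e' e1})) := by
      ext ω
      simp only [Set.mem_iUnion]
      exact Iff.rfl
    rw [h]
    exact MeasurableSet.iUnion fun e1 =>
      (ih e1).inter ((measurableSet_link _ _).union (measurableSet_link _ _))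

theorem measurableSet_strand {n : ℕ} (e e' : Edg n) :
    MeasurableSet {ω : Fin (2 * n + 1) × ℤ → Bool | e' ∈ strand ω e} := by
  have h : {ω : Fin (2 * n + 1) × ℤ → Bool | e' ∈ strand ω e} =
      ⋃ k, {ω | reach ω e k e'} := by
    ext ω
    simp only [Set.mem_iUnion]
    exact strand_reach ω e e'
  rw [h]
  exact MeasurableSet.iUnion fun k => measurableSet_reach _ _ _

/-- the strand of `e` reaches the distance `M` from the level `t0` -/
def Far {n : ℕ} (e : Edg n) (t0 : ℤ) (M : ℕ) : Set (Fin (2 * n + 1) × ℤ → Bool) :=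
  {ω | ∃ e' ∈ strand ω e, (M : ℤ) ≤ |ht e' - t0|}

theorem measurableSet_far {n : ℕ} (e : Edg n) (t0 : ℤ) (M : ℕ) : MeasurableSet (Far e t0 M) := by
  have h : Far e t0 M = ⋃ e' : Edg n,
      ({ω | e' ∈ strand ω e} ∩ {_ω | (M : ℤ) ≤ |ht e' - t0|}) := by
    ext ω
    simp only [Set.mem_iUnion]
    exact Iff.rfl
  rw [h]
  exact MeasurableSet.iUnion fun e' => (measurableSet_strand e e').inter (MeasurableSet.const _)

theorem far_antitone {n : ℕ} (e : Edg n) (t0 : ℤ) : Antitone (Far e t0) := by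
  intro a b hab ω hω
  obtain ⟨e', h1, h2⟩ := hω
  exact ⟨e', h1, le_trans (by exact_mod_cast hab) h2⟩

/-- the strand of `e` is infinite -/
def Inf {n : ℕ} (e : Edg n) : Set (Fin (2 * n + 1) × ℤ → Bool) := {ω | (strand ω e).Infinite}

theorem level_finite {n : ℕ} (a b : ℤ) : {e : Edg n | a ≤ ht e ∧ ht e ≤ b}.Finite := by
  have h1 : {e : Edg n | a ≤ ht e ∧ ht e ≤ b} ⊆
      (fun z : Fin (2 * n + 1) × ℤ => Edg.v z.1 z.2) '' (Set.univ ×ˢ Set.Icc a b) ∪
      (fun z : Fin (2 * n + 1) × ℤ => Edg.h z.1 z.2) '' (Set.univ ×ˢ Set.Icc a b) := by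
    intro e he
    rcases e with ⟨j, t⟩ | ⟨j, t⟩
    · left
      exact ⟨(j, t), ⟨Set.mem_univ _, he⟩, rfl⟩
    · right
      exact ⟨(j, t), ⟨Set.mem_univ _, he⟩, rfl⟩
  refine Set.Finite.subset ?_ h1
  exact ((Set.finite_univ.prod (Set.finite_Icc _ _)).image _).union
    ((Set.finite_univ.prod (Set.finite_Icc _ _)).image _)

theorem inf_eq {n : ℕ} (e : Edg n) (t0 : ℤ) : Inf e = ⋂ M, Far e t0 M := by
  ext ω
  simp only [Set.mem_iInter]
  constructor
  · intro h M
    by_contra hcon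
    apply h
    apply (level_finite (n := n) (t0 - M) (t0 + M)).subset
    intro e' he'
    have h1 : ¬ ((M : ℤ) ≤ |ht e' - t0|) := fun h1 => hcon ⟨e', he', h1⟩
    rw [not_le, abs_lt] at h1
    exact ⟨by omega, by omega⟩
  · intro h hfin
    obtain ⟨B, hB⟩ := (hfin.image (fun e' => |ht e' - t0|)).bddAbove
    obtain ⟨e', h1, h2⟩ := h (B.toNat + 1)
    have h3 : |ht e' - t0| ≤ B := hB ⟨e', h1, rfl⟩
    push_cast at h2
    omega

theorem measurableSet_inf {n : ℕ} (e : Edg n) : MeasurableSet (Inf e) := by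
  rw [inf_eq e 0]
  exact MeasurableSet.iInter fun M => measurableSet_far _ _ _

/-! ### alternating rows -/

/-- the alternating row -/
def alt (n : ℕ) : Fin (2 * n + 1) → Bool := fun j => decide (j.val % 2 = 1)

theorem altRow_iff {n : ℕ} (ω : Fin (2 * n + 1) × ℤ → Bool) (t : ℤ) :
    AltRow ω t ↔ (fun j => ω (j, t)) = alt n := by
  constructor
  · intro h; funext j; exact h j
  · intro h j; exact congrFun h j

theorem measurableSet_altRow {n : ℕ} (t : ℤ) :
    MeasurableSet {ω : Fin (2 * n + 1) × ℤ → Bool | AltRow ω t} := by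
  have h : {ω : Fin (2 * n + 1) × ℤ → Bool | AltRow ω t} = ⋂ j, {ω | ω (j, t) = alt n j} := by
    ext ω
    simp only [Set.mem_iInter]
    exact Iff.rfl
  rw [h]
  exact MeasurableSet.iInter fun j => measurableSet_coord _ _

/-- no alternating row among `t, …, t+M-1` -/
def Bad {n : ℕ} (t : ℤ) (M : ℕ) : Set (Fin (2 * n + 1) × ℤ → Bool) :=
  {ω | ∀ s : Fin M, ¬ AltRow ω (t + (s : ℕ))}

theorem measurableSet_bad {n : ℕ} (t : ℤ) (M : ℕ) : MeasurableSet (Bad (n := n) t M) := by
  have h : Bad (n := n) t M = ⋂ s : Fin M, {ω | AltRow ω (t + (s : ℕ))}ᶜ := by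
    ext ω
    simp only [Set.mem_iInter]
    exact Iff.rfl
  rw [h]
  exact MeasurableSet.iInter fun s => (measurableSet_altRow _).compl

/-- the biases stay away from `0` and `1` -/
def Ell (ε : ℝ) (p : ℤ → unitInterval) : Prop := 0 < ε ∧ ∀ t, ε ≤ (p t : ℝ) ∧ (p t : ℝ) ≤ 1 - ε

theorem rw1_alt {n : ℕ} {ε q : ℝ} (h0 : 0 < ε) (h1 : ε ≤ q) (h2 : q ≤ 1 - ε) :
    ε ^ (2 * n + 1) ≤ rw1 q (alt n) := by
  unfold rw1
  calc ε ^ (2 * n + 1) = ∏ _j : Fin (2 * n + 1), ε := by simp
    _ ≤ _ := by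
      refine Finset.prod_le_prod (fun _ _ => h0.le) fun j _ => ?_
      split_ifs
      · exact h1
      · linarith

theorem bad_le {n : ℕ} {ε : ℝ} {p : ℤ → unitInterval} (hp : Ell ε p) (t : ℤ) (M : ℕ) :
    (coins n p).real (Bad t M) ≤ (1 - ε ^ (2 * n + 1)) ^ M := by
  classical
  set G : (Fin M → Fin (2 * n + 1) → Bool) × (Fin M → Fin (2 * n + 1) → Bool) → ℝ :=
    fun x => ∏ s : Fin M, (if x.1 s = alt n then 0 else 1) with hG
  have h1 : ∀ ω, (Bad t M).indicator (fun _ => (1 : ℝ)) ω = G (win (t + M) M ω) := by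
    intro ω
    have h2 : ∀ s : Fin M, ((win (t + M) M ω).1 s = alt n) ↔ AltRow ω (t + (s : ℕ)) := by
      intro s
      rw [altRow_iff]
      show (fun j => ω (j, t + M - M + ((s : ℕ) : ℤ))) = alt n ↔ _
      rw [add_sub_cancel_right]
    by_cases h : ω ∈ Bad t M
    · rw [Set.indicator_of_mem h]
      symm
      show ∏ s : Fin M, (if (win (t + M) M ω).1 s = alt n then (0 : ℝ) else 1) = 1
      refine Finset.prod_eq_one fun s _ => ?_
      rw [if_neg]
      rw [h2]
      exact h s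
    · rw [Set.indicator_of_notMem h]
      symm
      have h' : ∃ s : Fin M, AltRow ω (t + (s : ℕ)) := by
        by_contra hc
        push Not at hc
        exact h hc
      obtain ⟨s, hs⟩ := h'
      show ∏ s : Fin M, (if (win (t + M) M ω).1 s = alt n then (0 : ℝ) else 1) = 0
      refine Finset.prod_eq_zero (Finset.mem_univ s) ?_
      rw [if_pos ((h2 s).2 hs)]
  have h3 : (coins n p).real (Bad t M) = ∫ ω, G (win (t + M) M ω) ∂(coins n p) := by
    rw [← integral_indicator_one (measurableSet_bad t M)]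
    refine integral_congr_ae (Eventually.of_forall fun ω => ?_)
    exact h1 ω
  rw [h3, integral_win]
  have h4 : ∀ a : Fin M → Fin (2 * n + 1) → Bool, ∑ b : Fin M → Fin (2 * n + 1) → Bool,
      (∏ s : Fin M, rw1 (p (t + M - M + (s : ℕ)) : ℝ) (a s)) *
        (∏ s : Fin M, rw1 (1 - (p (t + M + M - 1 - (s : ℕ)) : ℝ)) (b s)) * G (a, b)
      = ∏ s : Fin M, (rw1 (p (t + M - M + (s : ℕ)) : ℝ) (a s) * (if a s = alt n then 0 else 1)) := by
    intro a
    have h5 : ∑ b : Fin M → Fin (2 * n + 1) → Bool,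
        (∏ s : Fin M, rw1 (1 - (p (t + M + M - 1 - (s : ℕ)) : ℝ)) (b s)) = 1 := by
      have := Finset.prod_univ_sum (fun _ : Fin M => (Finset.univ : Finset (Fin (2 * n + 1) → Bool)))
        (fun s x => rw1 (1 - (p (t + M + M - 1 - ((s : ℕ) : ℤ)) : ℝ)) x)
      simp only [Fintype.piFinset_univ] at this
      rw [← this]
      refine Finset.prod_eq_one fun s _ => ?_
      exact sum_rw1 _
    have h6 : ∀ b : Fin M → Fin (2 * n + 1) → Bool,
        (∏ s : Fin M, rw1 (p (t + M - M + (s : ℕ)) : ℝ) (a s)) *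
        (∏ s : Fin M, rw1 (1 - (p (t + M + M - 1 - (s : ℕ)) : ℝ)) (b s)) * G (a, b)
        = (∏ s : Fin M, rw1 (1 - (p (t + M + M - 1 - (s : ℕ)) : ℝ)) (b s)) *
          ∏ s : Fin M, (rw1 (p (t + M - M + (s : ℕ)) : ℝ) (a s) *
            (if a s = alt n then 0 else 1)) := by
      intro b
      rw [Finset.prod_mul_distrib]
      show _ * _ * (∏ s : Fin M, (if a s = alt n then (0 : ℝ) else 1)) = _
      ring
    simp only [h6]
    rw [← Finset.sum_mul, h5, one_mul]
  simp only [h4]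
  have h7 := Finset.prod_univ_sum (fun _ : Fin M => (Finset.univ : Finset (Fin (2 * n + 1) → Bool)))
        (fun s x => rw1 (p (t + M - M + ((s : ℕ) : ℤ)) : ℝ) x * (if x = alt n then 0 else 1))
  simp only [Fintype.piFinset_univ] at h7
  rw [← h7]
  calc _ ≤ ∏ _s : Fin M, (1 - ε ^ (2 * n + 1)) := by
        refine Finset.prod_le_prod ?_ ?_
        · intro s _
          refine Finset.sum_nonneg fun x _ => ?_
          refine mul_nonneg (rw1_nonneg (p _).2.1 (p _).2.2 x) ?_
          split_ifs <;> norm_num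
        · intro s _
          have h8 : ∀ q : ℝ, ∑ x : Fin (2 * n + 1) → Bool, rw1 q x * (if x = alt n then 0 else 1)
              = 1 - rw1 q (alt n) := by
            intro q
            have h9 : ∀ x : Fin (2 * n + 1) → Bool, rw1 q x * (if x = alt n then 0 else 1)
              = rw1 q x - (if x = alt n then rw1 q (alt n) else 0) := by
              intro x
              split_ifs with hx
              · rw [hx]; ring
              · ring
            simp only [h9]
            rw [Finset.sum_sub_distrib, sum_rw1]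
            simp
          rw [h8]
          have := rw1_alt (n := n) hp.1 (hp.2 (t + M - M + ((s : ℕ) : ℤ))).1
            (hp.2 (t + M - M + ((s : ℕ) : ℤ))).2
          linarith
    _ = _ := by simp

theorem ell_le_half {ε : ℝ} {p : ℤ → unitInterval} (hp : Ell ε p) : ε ≤ 1 / 2 := by
  have := hp.2 0
  linarith

theorem tendsto_bad {n : ℕ} {ε : ℝ} {p : ℤ → unitInterval} (hp : Ell ε p) :
    Tendsto (fun M : ℕ => (1 - ε ^ (2 * n + 1)) ^ M) atTop (𝓝 0) := by
  have h1 := ell_le_half hp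
  have h2 : 0 < ε ^ (2 * n + 1) := pow_pos hp.1 _
  have h3 : ε ^ (2 * n + 1) ≤ 1 := pow_le_one₀ hp.1.le (by linarith)
  exact tendsto_pow_atTop_nhds_zero_of_lt_one (by linarith) (by linarith)

theorem ae_good {n : ℕ} {ε : ℝ} {p : ℤ → unitInterval} (hp : Ell ε p) :
    ∀ᵐ ω ∂(coins n p), Good ω := by
  have key : ∀ g : ℕ → ℤ, (∀ᵐ ω ∂(coins n p), ∃ M : ℕ, ω ∉ Bad (n := n) (g M) M) := by
    intro g
    rw [ae_iff]
    have h1 : {ω : Fin (2 * n + 1) × ℤ → Bool | ¬ ∃ M : ℕ, ω ∉ Bad (n := n) (g M) M}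
        = {ω | ∀ M : ℕ, ω ∈ Bad (n := n) (g M) M} := by
      ext ω
      simp
    rw [h1]
    have h2 : (coins n p).real {ω | ∀ M : ℕ, ω ∈ Bad (n := n) (g M) M} ≤ 0 := by
      refine ge_of_tendsto' (tendsto_bad (n := n) hp) fun M => ?_
      refine le_trans (measureReal_mono ?_) (bad_le hp (g M) M)
      intro ω hω
      exact hω M
    have h3 : (coins n p).real {ω | ∀ M : ℕ, ω ∈ Bad (n := n) (g M) M} = 0 :=
      le_antisymm h2 measureReal_nonneg
    rwa [measureReal_eq_zero_iff] at h3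
  have h1 : ∀ᵐ ω ∂(coins n p), ∀ t : ℤ, (∃ M : ℕ, ω ∉ Bad (n := n) t M) ∧
      ∃ M : ℕ, ω ∉ Bad (n := n) (t - M) M := by
    rw [ae_all_iff]
    intro t
    exact (key fun _ => t).and (key fun M => t - M)
  filter_upwards [h1] with ω hω
  intro t
  obtain ⟨⟨M, h2⟩, ⟨M', h3⟩⟩ := hω t
  have e2 : ∃ s : Fin M, AltRow ω (t + (s : ℕ)) := by
    by_contra hc
    push Not at hc
    exact h2 hc
  have e3 : ∃ s : Fin M', AltRow ω (t - M' + (s : ℕ)) := by
    by_contra hc
    push Not at hc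
    exact h3 hc
  obtain ⟨s, hs⟩ := e2
  obtain ⟨s', hs'⟩ := e3
  have := s'.2
  exact ⟨⟨_, by omega, hs'⟩, ⟨_, by omega, hs⟩⟩

/-! ### the exact value -/

theorem value_v {n : ℕ} {ε : ℝ} {p : ℤ → unitInterval} (hp : Ell ε p) (j : Fin (2 * n + 1))
    (t0 : ℤ) : (coins n p).real (Inf (Edg.v j t0)) = pval n := by
  classical
  obtain ⟨μ, m0, m1, m2, -, -⟩ := markov_exists n
  have hv := pairing_value n μ m1 m2 j
  -- the averaged indicator
  let G : (M : ℕ) → (Fin M → Fin (2 * n + 1) → Bool) × (Fin M → Fin (2 * n + 1) → Bool) → ℝ :=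
    fun M x => ∑ σ, ∑ τ, μ σ * μ τ *
      (pr j (rows (2 * n) (ext x.1) M σ) (rows (2 * n) (ext x.2) M τ)).re
  have hint : ∀ M : ℕ, ∫ ω, G M (win t0 M ω) ∂(coins n p) = pval n := by
    intro M
    rw [integral_win]
    set W1 : (Fin M → Fin (2 * n + 1) → Bool) → ℝ :=
      fun a => ∏ s : Fin M, rw1 (p (t0 - M + (s : ℕ)) : ℝ) (a s) with hW1
    set W2 : (Fin M → Fin (2 * n + 1) → Bool) → ℝ :=
      fun b => ∏ s : Fin M, rw1 (1 - (p (t0 + M - 1 - (s : ℕ)) : ℝ)) (b s) with hW2
    have r1 : ∀ f : Pat (2 * n + 1) → ℝ, ∑ a, W1 a * ∑ σ, μ σ * f (rows (2 * n) (ext a) M σ)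
        = ∑ σ, μ σ * f σ := fun f =>
      rows_stat_bias n μ m1 m2 M (fun s => (p (t0 - M + (s : ℕ)) : ℝ)) f
    have r2 : ∀ f : Pat (2 * n + 1) → ℝ, ∑ a, W2 a * ∑ σ, μ σ * f (rows (2 * n) (ext a) M σ)
        = ∑ σ, μ σ * f σ := fun f =>
      rows_stat_bias n μ m1 m2 M (fun s => 1 - (p (t0 + M - 1 - (s : ℕ)) : ℝ)) f
    have e1 : ∑ a, ∑ b, W1 a * W2 b * G M (a, b) = ∑ b, W2 b * ∑ τ, μ τ *
        (∑ a, W1 a * ∑ σ, μ σ *
          (fun σ' => (pr j σ' (rows (2 * n) (ext b) M τ)).re) (rows (2 * n) (ext a) M σ)) := by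
      rw [Finset.sum_comm]
      refine Finset.sum_congr rfl fun b _ => ?_
      have e2 : ∀ a, W1 a * W2 b * G M (a, b) = ∑ τ, W2 b * (μ τ * (W1 a * ∑ σ, μ σ *
          (pr j (rows (2 * n) (ext a) M σ) (rows (2 * n) (ext b) M τ)).re)) := by
        intro a
        show W1 a * W2 b * ∑ σ, ∑ τ, _ = _
        rw [Finset.sum_comm, Finset.mul_sum]
        refine Finset.sum_congr rfl fun τ _ => ?_
        rw [Finset.mul_sum, Finset.mul_sum, Finset.mul_sum, Finset.mul_sum]
        refine Finset.sum_congr rfl fun σ _ => ?_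
        ring
      simp only [e2]
      rw [Finset.sum_comm, Finset.mul_sum]
      refine Finset.sum_congr rfl fun τ _ => ?_
      rw [← Finset.mul_sum, ← Finset.mul_sum]
    show ∑ a, ∑ b, W1 a * W2 b * G M (a, b) = pval n
    rw [e1]
    have e4 : ∑ b, W2 b * ∑ τ, μ τ *
        (∑ a, W1 a * ∑ σ, μ σ *
          (fun σ' => (pr j σ' (rows (2 * n) (ext b) M τ)).re) (rows (2 * n) (ext a) M σ)) =
        ∑ b, W2 b * ∑ τ, μ τ * ∑ σ, μ σ * (pr j σ (rows (2 * n) (ext b) M τ)).re := by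
      refine Finset.sum_congr rfl fun b _ => ?_
      congr 1
      refine Finset.sum_congr rfl fun τ _ => ?_
      exact congrArg (fun x => μ τ * x)
        (r1 (fun σ' => (pr j σ' (rows (2 * n) (ext b) M τ)).re))
    rw [e4]
    have e3 : ∑ b, W2 b * ∑ τ, μ τ * ∑ σ, μ σ * (pr j σ (rows (2 * n) (ext b) M τ)).re
        = ∑ b, W2 b * ∑ τ, μ τ * (fun τ' => ∑ σ, μ σ * (pr j σ τ').re)
          (rows (2 * n) (ext b) M τ) := rfl
    rw [e3]
    refine (r2 (fun τ' => ∑ σ, μ σ * (pr j σ τ').re)).trans ?_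
    rw [← hv, Finset.sum_comm]
    refine Finset.sum_congr rfl fun τ _ => ?_
    rw [Finset.mul_sum]
    refine Finset.sum_congr rfl fun σ _ => ?_
    ring
  have hrow1 : ∀ ω (M : ℕ) σ, rows (2 * n) (ext (win t0 M ω).1) M σ
      = rows (2 * n) (lowc ω t0 M) M σ := by
    intro ω M σ
    apply rows_congr
    intro t ht
    unfold H974R3.ext
    rw [dif_pos ht]
    rfl
  have hrow2 : ∀ ω (M : ℕ) σ, rows (2 * n) (ext (win t0 M ω).2) M σ
      = rows (2 * n) (uppc ω t0 M) M σ := by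
    intro ω M σ
    apply rows_congr
    intro t ht
    unfold H974R3.ext
    rw [dif_pos ht]
    rfl
  have hG0 : ∀ M x, 0 ≤ G M x := fun M x => Finset.sum_nonneg fun σ _ =>
    Finset.sum_nonneg fun τ _ => mul_nonneg (mul_nonneg (m0 σ) (m0 τ)) (pr_re_nonneg _ _ _)
  have hG1 : ∀ M x, G M x ≤ 1 := by
    intro M x
    calc G M x ≤ ∑ σ, ∑ τ, μ σ * μ τ := by
          refine Finset.sum_le_sum fun σ _ => Finset.sum_le_sum fun τ _ => ?_
          exact mul_le_of_le_one_right (mul_nonneg (m0 σ) (m0 τ)) (pr_re_le_one _ _ _)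
      _ = 1 := by rw [← Finset.sum_mul_sum, m1, one_mul]
  have hmeas : ∀ M : ℕ, Measurable fun ω => G M (win t0 M ω) := fun M =>
    (measurable_of_finite (G M)).comp (measurable_win t0 M)
  have hintg : ∀ M : ℕ, Integrable (fun ω => G M (win t0 M ω)) (coins n p) := by
    intro M
    refine Integrable.of_bound (hmeas M).aestronglyMeasurable 1 (Eventually.of_forall fun ω => ?_)
    rw [Real.norm_eq_abs, abs_of_nonneg (hG0 _ _)]
    exact hG1 _ _
  -- lower bound
  have hlow : ∀ M : ℕ, pval n ≤ (coins n p).real (Far (Edg.v j t0) t0 M) := by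
    intro M
    rw [← hint M, ← integral_indicator_one (measurableSet_far _ _ _)]
    refine integral_mono (hintg M) ?_ ?_
    · exact (integrable_const (1 : ℝ)).indicator (measurableSet_far _ _ _)
    · intro ω
      show G M (win t0 M ω) ≤ (Far (Edg.v j t0) t0 M).indicator 1 ω
      by_cases h : ω ∈ Far (Edg.v j t0) t0 M
      · rw [Set.indicator_of_mem h]
        exact hG1 _ _
      · rw [Set.indicator_of_notMem h]
        refine le_of_eq ?_
        refine Finset.sum_eq_zero fun σ _ => Finset.sum_eq_zero fun τ _ => ?_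
        rw [hrow1, hrow2]
        unfold pr
        rw [if_neg]
        · simp
        · intro hc
          exact h (conn_reach ω t0 M σ τ j hc)
  have hlim : Tendsto (fun M => (coins n p).real (Far (Edg.v j t0) t0 M)) atTop
      (𝓝 ((coins n p).real (Inf (Edg.v j t0)))) := by
    rw [inf_eq (Edg.v j t0) t0]
    simp only [measureReal_def]
    refine (ENNReal.tendsto_toReal (measure_ne_top _ _)).comp ?_
    exact tendsto_measure_iInter_atTop (fun M => (measurableSet_far _ _ _).nullMeasurableSet)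
      (far_antitone _ _) ⟨0, measure_ne_top _ _⟩
  have hge : pval n ≤ (coins n p).real (Inf (Edg.v j t0)) := ge_of_tendsto' hlim hlow
  -- upper bound
  have hup : ∀ M : ℕ, (coins n p).real (Inf (Edg.v j t0)) ≤
      pval n + 2 * (1 - ε ^ (2 * n + 1)) ^ M := by
    intro M
    set A : Set (Fin (2 * n + 1) × ℤ → Bool) := (Bad (t0 - M) M)ᶜ ∩ (Bad t0 M)ᶜ with hA
    have mA : MeasurableSet A := (measurableSet_bad _ _).compl.inter (measurableSet_bad _ _).compl
    have h1 : (coins n p).real (Inf (Edg.v j t0) ∩ A) ≤ pval n := by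
      rw [← hint M, ← integral_indicator_one ((measurableSet_inf _).inter mA)]
      refine integral_mono ?_ (hintg M) ?_
      · exact (integrable_const (1 : ℝ)).indicator ((measurableSet_inf _).inter mA)
      · intro ω
        show (Inf (Edg.v j t0) ∩ A).indicator 1 ω ≤ G M (win t0 M ω)
        by_cases h : ω ∈ Inf (Edg.v j t0) ∩ A
        · rw [Set.indicator_of_mem h]
          have hω1 : (strand ω (Edg.v j t0)).Infinite := h.1
          have e2 : ∃ s : Fin M, AltRow ω (t0 + (s : ℕ)) := by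
            by_contra hc
            push Not at hc
            exact h.2.2 hc
          have e3 : ∃ s : Fin M, AltRow ω (t0 - M + (s : ℕ)) := by
            by_contra hc
            push Not at hc
            exact h.2.1 hc
          obtain ⟨s, hs⟩ := e2
          obtain ⟨s', hs'⟩ := e3
          have b1 := s.2
          have b2 := s'.2
          refine le_of_eq ?_
          show (1 : ℝ) = _
          have e4 : ∀ σ τ, (pr j (rows (2 * n) (ext (win t0 M ω).1) M σ)
              (rows (2 * n) (ext (win t0 M ω).2) M τ)).re = 1 := by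
            intro σ τ
            rw [hrow1, hrow2]
            unfold pr
            rw [if_pos]
            · simp
            · by_contra hc
              exact hω1 (finite_of_not_conn ω t0 M σ τ j (t0 - M + ((s' : ℕ) : ℤ))
                (t0 + ((s : ℕ) : ℤ)) (by omega) (by omega) (by omega) (by omega) hs' hs hc)
          show (1 : ℝ) = ∑ σ, ∑ τ, μ σ * μ τ * (pr j (rows (2 * n) (ext (win t0 M ω).1) M σ)
              (rows (2 * n) (ext (win t0 M ω).2) M τ)).re
          simp only [e4, mul_one]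
          rw [← Finset.sum_mul_sum, m1, one_mul]
        · rw [Set.indicator_of_notMem h]
          exact hG0 _ _
    have h2 : (coins n p).real (Inf (Edg.v j t0)) ≤ (coins n p).real (Inf (Edg.v j t0) ∩ A) +
        ((coins n p).real (Bad (t0 - M) M) + (coins n p).real (Bad t0 M)) := by
      refine le_trans (measureReal_mono (s₂ := (Inf (Edg.v j t0) ∩ A) ∪
        (Bad (t0 - M) M ∪ Bad t0 M)) ?_) ?_
      · intro ω hω
        by_cases h3 : ω ∈ Bad (t0 - M) M
        · exact Or.inr (Or.inl h3)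
        · by_cases h4 : ω ∈ Bad t0 M
          · exact Or.inr (Or.inr h4)
          · exact Or.inl ⟨hω, h3, h4⟩
      · refine le_trans (measureReal_union_le _ _) ?_
        gcongr
        exact measureReal_union_le _ _
    have h3 := bad_le hp (t0 - M) M (n := n)
    have h4 := bad_le hp t0 M (n := n)
    linarith
  have hle : (coins n p).real (Inf (Edg.v j t0)) ≤ pval n := by
    have h1 : Tendsto (fun M : ℕ => pval n + 2 * (1 - ε ^ (2 * n + 1)) ^ M) atTop
        (𝓝 (pval n + 2 * 0)) := ((tendsto_bad (n := n) hp).const_mul 2).const_add _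
    rw [mul_zero, add_zero] at h1
    exact ge_of_tendsto' h1 hup
  exact le_antisymm hle hge

/-! ### the other edges -/

theorem inf_congr {n : ℕ} {ω : Fin (2 * n + 1) × ℤ → Bool} {e e' : Edg n} (h : Link ω e e') :
    ω ∈ Inf e ↔ ω ∈ Inf e' := by
  have h1 : strand ω e = strand ω e' := by
    ext x
    exact ⟨fun hx => Relation.EqvGen.trans _ _ _ (Relation.EqvGen.symm _ _
      (Relation.EqvGen.rel _ _ h)) hx, fun hx => Relation.EqvGen.trans _ _ _
      (Relation.EqvGen.rel _ _ h) hx⟩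
  show (strand ω e).Infinite ↔ (strand ω e').Infinite
  rw [h1]

theorem plaquette {n : ℕ} (p : ℤ → unitInterval) (j : Fin (2 * n + 1)) (t : ℤ) :
    (coins n p).real (Inf (Edg.h j t)) + (coins n p).real (Inf (Edg.h (j + 1) t)) =
      (coins n p).real (Inf (Edg.v j t)) + (coins n p).real (Inf (Edg.v j (t + 1))) := by
  have h1 : ∀ e : Edg n, (coins n p).real (Inf e) =
      ∫ ω, (Inf e).indicator (1 : (Fin (2 * n + 1) × ℤ → Bool) → ℝ) ω ∂(coins n p) := fun e =>
    (integral_indicator_one (measurableSet_inf e)).symm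
  have hi : ∀ e : Edg n, Integrable (fun ω => (Inf e).indicator (1 : (Fin (2 * n + 1) × ℤ → Bool) → ℝ) ω) (coins n p) :=
    fun e => (integrable_const (1 : ℝ)).indicator (measurableSet_inf e)
  rw [h1, h1, h1, h1, ← integral_add (hi _) (hi _), ← integral_add (hi _) (hi _)]
  refine integral_congr_ae (Eventually.of_forall fun ω => ?_)
  show (Inf (Edg.h j t)).indicator (1 : (Fin (2 * n + 1) × ℤ → Bool) → ℝ) ω + (Inf (Edg.h (j + 1) t)).indicator (1 : (Fin (2 * n + 1) × ℤ → Bool) → ℝ) ω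
    = (Inf (Edg.v j t)).indicator (1 : (Fin (2 * n + 1) × ℤ → Bool) → ℝ) ω + (Inf (Edg.v j (t + 1))).indicator (1 : (Fin (2 * n + 1) × ℤ → Bool) → ℝ) ω
  have hind : ∀ e e' : Edg n, Link ω e e' →
      (Inf e).indicator (1 : (Fin (2 * n + 1) × ℤ → Bool) → ℝ) ω = (Inf e').indicator (1 : (Fin (2 * n + 1) × ℤ → Bool) → ℝ) ω := by
    intro e e' h
    have := inf_congr h
    by_cases h3 : ω ∈ Inf e
    · rw [Set.indicator_of_mem h3, Set.indicator_of_mem (this.1 h3)]
    · rw [Set.indicator_of_notMem h3, Set.indicator_of_notMem (fun h4 => h3 (this.2 h4))]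
  cases hω : ω (j, t) with
  | false =>
    rw [hind _ _ (Link.br j t hω), hind _ _ (Link.lt j t hω)]
    ring
  | true =>
    rw [hind _ _ (Link.bl j t hω), hind _ _ (Link.rt j t hω)]

theorem odd_cycle {n : ℕ} {D : Fin (2 * n + 1) → ℝ} (h : ∀ j, D (j + 1) = -D j) (j : Fin (2 * n + 1)) :
    D j = 0 := by
  have h1 : ∀ k : ℕ, D (ix (2 * n) k) = (-1) ^ k * D (ix (2 * n) 0) := by
    intro k
    induction k with
    | zero => simp
    | succ k ih =>
      rw [← ix_succ, h, ih, pow_succ]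
      ring
  have h2 : D (ix (2 * n) 0) = 0 := by
    have h3 := h1 (2 * n + 1)
    have h4 : ix (2 * n) (2 * n + 1) = ix (2 * n) 0 := by
      apply CMP.ix_congr
      simp
    rw [h4, Odd.neg_one_pow ⟨n, rfl⟩] at h3
    linarith
  have h5 := h1 j.val
  rw [CMP.ix_self, h2, mul_zero] at h5
  exact h5

theorem value {n : ℕ} {ε : ℝ} {p : ℤ → unitInterval} (hp : Ell ε p) (e : Edg n) :
    (coins n p).real (Inf e) = pval n := by
  rcases e with ⟨j, t⟩ | ⟨j, t⟩
  · exact value_v hp j t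
  · have h := odd_cycle (D := fun j => (coins n p).real (Inf (Edg.h j t)) - pval n) (fun j => by
      have := plaquette (n := n) p j t
      rw [value_v hp, value_v hp] at this
      linarith) j
    simpa [sub_eq_zero] using h

end Pool.Agent.Helper21.ID
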